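import Pool.Agent.Lib.MP_ecd12e_nt.Sep

/-! Multiplicative energy of fractions near a geometric progression. -/

namespace Pool.Agent.Lib.MP_ecd12e_nt

open Finset

lemma two_pow_card_primeFactors_le {n : ℕ} (hn : n ≠ 0) :
    2 ^ n.primeFactors.card ≤ n.divisors.card := by
  rw [Nat.card_divisors hn, ← prod_const]
  refine prod_le_prod' fun p hp => ?_
  have := (Nat.prime_of_mem_primeFactors hp).factorization_pos_of_dvd hn
    (Nat.dvd_of_mem_primeFactors hp)
  omega

/-- A large subfamily in which all numerators are prime to all denominators. -/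
lemma exists_split {H B : ℝ} (hB : TauLe H B) {S : Finset (ℕ × ℕ)} (hS : ∀ p ∈ S, Red H p) :
    ∃ S' ⊆ S, (S.card : ℝ) ≤ B ^ 2 * S'.card ∧ ∀ p ∈ S', ∀ q ∈ S', Nat.Coprime p.1 q.2 := by
  classical
  set P : Finset ℕ := S.biUnion fun p => p.1.primeFactors ∪ p.2.primeFactors with hP
  let r : ℕ × ℕ → Finset ℕ → Prop := fun p U => p.1.primeFactors ⊆ U ∧ Disjoint p.2.primeFactors U
  have h1 : ∀ p ∈ S, (2 : ℝ) ^ P.card ≤ B ^ 2 * (P.powerset.filter (r p)).card := by
    intro p hp
    have hsub : p.1.primeFactors ∪ p.2.primeFactors ⊆ P :=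
      subset_biUnion_of_mem (fun p : ℕ × ℕ => p.1.primeFactors ∪ p.2.primeFactors) hp
    have hdisj := (hS p hp).cop.disjoint_primeFactors
    have h2 : (P \ (p.1.primeFactors ∪ p.2.primeFactors)).powerset.card ≤
        (P.powerset.filter (r p)).card := by
      refine card_le_card_of_injOn (fun V => V ∪ p.1.primeFactors) (fun V hV => ?_)
        fun V hV V' hV' e => ?_
      · have hV' := mem_powerset.mp (mem_coe.mp hV)
        refine mem_coe.mpr (mem_filter.mpr ⟨mem_powerset.mpr (union_subset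
          (hV'.trans sdiff_subset) (subset_union_left.trans hsub)), subset_union_right, ?_⟩)
        refine disjoint_union_right.mpr ⟨?_, hdisj.symm⟩
        exact disjoint_left.mpr fun x hx hxV =>
          (mem_sdiff.mp (hV' hxV)).2 (mem_union_right _ hx)
      · have key : ∀ W : Finset ℕ, W ⊆ P \ (p.1.primeFactors ∪ p.2.primeFactors) →
            (W ∪ p.1.primeFactors) \ p.1.primeFactors = W := by
          intro W hW
          refine union_sdiff_cancel_right (disjoint_left.mpr fun x hx hx' => ?_)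
          exact (mem_sdiff.mp (hW hx)).2 (mem_union_left _ hx')
        rw [← key V (mem_powerset.mp (mem_coe.mp hV)), ← key V' (mem_powerset.mp (mem_coe.mp hV'))]
        exact congrArg (· \ p.1.primeFactors) e
    rw [card_powerset, card_sdiff_of_subset hsub, card_union_of_disjoint hdisj] at h2
    have h3 := card_le_card hsub
    rw [card_union_of_disjoint hdisj] at h3
    have a1 : p.1 ≠ 0 := by have := (hS p hp).pos1; omega
    have a2 : p.2 ≠ 0 := by have := (hS p hp).pos2; omega
    have b1 : (2 : ℝ) ^ p.1.primeFactors.card ≤ B :=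
      le_trans (by exact_mod_cast two_pow_card_primeFactors_le a1) (hB _ a1 (hS p hp).le1)
    have b2 : (2 : ℝ) ^ p.2.primeFactors.card ≤ B :=
      le_trans (by exact_mod_cast two_pow_card_primeFactors_le a2) (hB _ a2 (hS p hp).le2)
    have hB0 : 0 ≤ B := le_trans (by positivity) b1
    calc (2 : ℝ) ^ P.card = 2 ^ p.1.primeFactors.card * 2 ^ p.2.primeFactors.card *
          2 ^ (P.card - (p.1.primeFactors.card + p.2.primeFactors.card)) := by
          rw [← pow_add, ← pow_add, Nat.add_sub_cancel' h3]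
      _ ≤ B * B * (P.powerset.filter (r p)).card := by
          gcongr
          exact_mod_cast h2
      _ = _ := by ring
  have h2 : ∑ _U ∈ P.powerset, (S.card : ℝ) ≤
      ∑ U ∈ P.powerset, B ^ 2 * ((S.filter fun p => r p U).card : ℝ) := by
    have e : ∑ U ∈ P.powerset, (S.filter fun p => r p U).card =
        ∑ p ∈ S, (P.powerset.filter (r p)).card := by
      simp only [card_filter]
      exact sum_comm
    rw [sum_const, ← mul_sum, ← Nat.cast_sum, e, Nat.cast_sum, mul_sum, card_powerset,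
      nsmul_eq_mul]
    refine le_trans (le_of_eq ?_) (sum_le_sum h1)
    rw [sum_const, nsmul_eq_mul]
    push_cast
    ring
  obtain ⟨U, -, hU⟩ := exists_le_of_sum_le ⟨∅, empty_mem_powerset _⟩ h2
  refine ⟨_, filter_subset _ _, hU, fun p hp q hq => ?_⟩
  obtain ⟨hp1, hp2⟩ := mem_filter.mp hp
  obtain ⟨hq1, hq2⟩ := mem_filter.mp hq
  refine (Nat.disjoint_primeFactors (by have := (hS p hp1).pos1; omega)
    (by have := (hS q hq1).pos2; omega)).mp ?_
  exact (hq2.2.mono_right hp2.1).symm

/-- The `j`-fold multiplicative energy bound. -/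
lemma energy {H B η c K : ℝ} {j : ℕ} (hj : j ≠ 0) (hH : 1 ≤ H) (hη : 0 ≤ η) (hK : 0 ≤ K)
    (hB : TauLe (H ^ j) B) {S : Finset (ℕ × ℕ)} (hS : ∀ p ∈ S, Red H p)
    (hy : ∀ p ∈ S, ∃ k : ℤ, |(k : ℝ)| ≤ K ∧ |lg p - k * c| ≤ η) :
    (S.card : ℝ) ^ j ≤ B ^ (4 * j) * ((2 * (j * K) + 1) * (1 + 2 * (j * η) * (H ^ j) ^ 2)) := by
  classical
  have hB1 : 1 ≤ B := by simpa using hB 1 one_ne_zero (by simpa using one_le_pow₀ hH)
  obtain ⟨S', hsub, hcard, hcop⟩ := exists_split (hB.mono (le_self_pow₀ hH hj)) hS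
  let F : (Fin j → ℕ × ℕ) → ℕ × ℕ := fun x => (∏ i, (x i).1, ∏ i, (x i).2)
  set U := Fintype.piFinset fun _ : Fin j => S' with hU
  have hred : ∀ x ∈ U, Red (H ^ j) (F x) := by
    intro x hx
    have hx' : ∀ i, x i ∈ S' := Fintype.mem_piFinset.mp hx
    have h0 : ∀ i, Red H (x i) := fun i => hS _ (hsub (hx' i))
    have key : ∀ f : Fin j → ℕ, (∀ i, (f i : ℝ) ≤ H) → ((∏ i, f i : ℕ) : ℝ) ≤ H ^ j := by
      intro f hf
      push_cast
      refine (prod_le_prod (fun i _ => Nat.cast_nonneg _) fun i _ => hf i).trans_eq ?_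
      simp
    have p1 : 0 < ∏ i, (x i).1 := prod_pos fun i _ => (h0 i).pos1
    have p2 : 0 < ∏ i, (x i).2 := prod_pos fun i _ => (h0 i).pos2
    have p0 : Nat.Coprime (∏ i, (x i).1) (∏ i, (x i).2) :=
      Nat.Coprime.prod_left fun i _ => Nat.Coprime.prod_right fun l _ => hcop _ (hx' i) _ (hx' l)
    exact ⟨p0, p1, p2, key _ fun i => (h0 i).le1, key _ fun i => (h0 i).le2⟩
  have h1 : ((U.image F).card : ℝ) ≤ (2 * (j * K) + 1) * (1 + 2 * (j * η) * (H ^ j) ^ 2) := by
    refine card_cover' (c := c) (by positivity) (by positivity) (fun p hp => ?_) fun p hp => ?_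
    · obtain ⟨x, hx, rfl⟩ := mem_image.mp hp
      exact hred x hx
    · obtain ⟨x, hx, rfl⟩ := mem_image.mp hp
      have hx' : ∀ i, x i ∈ S := fun i => hsub (Fintype.mem_piFinset.mp hx i)
      choose k hk using fun i => hy _ (hx' i)
      refine ⟨∑ i, k i, ?_, ?_⟩
      · push_cast
        refine (abs_sum_le_sum_abs _ _).trans ((sum_le_sum fun i _ => (hk i).1).trans_eq ?_)
        simp
      · have e : lg (F x) - (∑ i, k i : ℤ) * c = ∑ i, (lg (x i) - k i * c) := by
          simp only [lg, F]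
          push_cast
          rw [Real.log_prod fun i _ => Nat.cast_ne_zero.mpr
            (by have := (hS _ (hx' i)).pos1; omega), Real.log_prod fun i _ =>
            Nat.cast_ne_zero.mpr (by have := (hS _ (hx' i)).pos2; omega), sum_sub_distrib,
            sum_sub_distrib, sum_mul]
        rw [e]
        refine (abs_sum_le_sum_abs _ _).trans ((sum_le_sum fun i _ => (hk i).2).trans_eq ?_)
        simp
  have h2 : (U.card : ℝ) ≤ (U.image F).card * (B ^ 2) ^ j := by
    refine card_le_mul_real F (fun x hx => mem_image_of_mem _ hx) fun p hp V hV hF => ?_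
    obtain ⟨y, hy, rfl⟩ := mem_image.mp hp
    have hr := hred y hy
    have a1 : (F y).1 ≠ 0 := by have := hr.pos1; omega
    have a2 : (F y).2 ≠ 0 := by have := hr.pos2; omega
    have h3 : V ⊆ Fintype.piFinset fun _ : Fin j => (F y).1.divisors ×ˢ (F y).2.divisors := by
      intro x hx
      refine Fintype.mem_piFinset.mpr fun i => mem_product.mpr ⟨?_, ?_⟩
      · refine Nat.mem_divisors.mpr ⟨?_, a1⟩
        rw [← hF x hx]
        exact dvd_prod_of_mem (fun i => (x i).1) (mem_univ i)
      · refine Nat.mem_divisors.mpr ⟨?_, a2⟩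
        rw [← hF x hx]
        exact dvd_prod_of_mem (fun i => (x i).2) (mem_univ i)
    have h4 := card_le_card h3
    rw [Fintype.card_piFinset_const, card_product] at h4
    refine le_trans (by exact_mod_cast h4 : (V.card : ℝ) ≤
      (((F y).1.divisors.card : ℝ) * (F y).2.divisors.card) ^ j) ?_
    rw [sq]
    gcongr
    · exact hB _ a1 hr.le1
    · exact hB _ a2 hr.le2
  rw [hU, Fintype.card_piFinset_const] at h2
  push_cast at h2
  calc (S.card : ℝ) ^ j ≤ (B ^ 2 * S'.card) ^ j := by gcongr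
    _ = (B ^ 2) ^ j * (S'.card : ℝ) ^ j := mul_pow _ _ _
    _ ≤ (B ^ 2) ^ j * (((2 * (j * K) + 1) * (1 + 2 * (j * η) * (H ^ j) ^ 2)) * (B ^ 2) ^ j) := by
        gcongr
        exact h2.trans (by gcongr)
    _ = _ := by ring

end Pool.Agent.Lib.MP_ecd12e_nt
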