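import Pool.Agent.Lib.MP_ecd12e_nt.Interval
import Pool.Agent.Lib.MP_ecd12e_nt.Energy

/-! The number of reduced fractions of height `Q` near a geometric progression. -/

namespace Pool.Agent.Lib.MP_ecd12e_nt

open Finset

/-- Reduced fractions of height about `Q` whose logarithm is within `η` of a multiple of `c`. -/
def Good (Q η c : ℝ) (p : ℕ × ℕ) : Prop :=
  Nat.Coprime p.1 p.2 ∧ ∃ k : ℤ, Nr Q η (k * c) p.1 p.2

lemma Good.red {Q η c : ℝ} {p : ℕ × ℕ} (h : Good Q η c p) (hQ : 0 < Q) : Red (2 * Q) p := by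
  obtain ⟨h1, k, h2⟩ := h
  exact ⟨h1, Nat.cast_pos.mp (hQ.trans_le h2.lo1), Nat.cast_pos.mp (hQ.trans_le h2.lo2), h2.hi1,
    h2.hi2⟩

lemma pos_of_mul_one_le {c d : ℝ} (hd : 1 ≤ d) (hc : 1 ≤ c * d) : 0 < c := by
  by_contra h
  nlinarith

lemma Nr.abs_le {Q R c d a b k : ℝ} (h : Nr Q (c / R) (k * c) a b) (hQ : 0 < Q) (hR : 1 ≤ R)
    (hd : 1 ≤ d) (hc : 1 ≤ c * d) : |k| ≤ 2 * d := by
  have hc0 : 0 < c := pos_of_mul_one_le hd hc
  have key : ∀ a b : ℝ, Q ≤ a → a ≤ 2 * Q → Q ≤ b → Real.log a - Real.log b ≤ 1 := by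
    intro a b h1 h2 h3
    have hb := hQ.trans_le h3
    rw [← Real.log_div (hQ.trans_le h1).ne' hb.ne']
    have := Real.log_le_sub_one_of_pos (div_pos (hQ.trans_le h1) hb)
    have : a / b ≤ 2 := (div_le_iff₀ hb).mpr (by linarith)
    linarith
  have h1 := key a b h.lo1 h.hi1 h.lo2
  have h2 := key b a h.lo2 h.hi2 h.lo1
  have h3 := _root_.abs_le.mp h.near
  have h4 : c / R ≤ c := div_le_self hc0.le hR
  have h5 : |k * c| ≤ 1 + c := _root_.abs_le.mpr ⟨by linarith, by linarith⟩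
  rw [abs_mul, abs_of_pos hc0] at h5
  refine le_of_mul_le_mul_right (h5.trans ?_) hc0
  nlinarith

lemma count_trivial {Q R c d : ℝ} (hQ : 0 < Q) (hR : 1 ≤ R) (hd : 1 ≤ d) (hc : 1 ≤ c * d)
    (hc' : c * d ≤ 7) {S : Finset (ℕ × ℕ)} (hS : ∀ p ∈ S, Good Q (c / R) c p) :
    (S.card : ℝ) ≤ 5 * d + 280 * (Q ^ 2 / R) := by
  have hc0 : 0 < c := pos_of_mul_one_le hd hc
  refine (card_cover' (c := c) (K := 2 * d) (η := c / R) (by positivity) (by positivity)
    (fun p hp => (hS p hp).red hQ) fun p hp => ?_).trans ?_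
  · obtain ⟨k, hk⟩ := (hS p hp).2
    exact ⟨k, hk.abs_le hQ hR hd hc, hk.near⟩
  · calc _ ≤ 5 * d * (1 + 2 * (c / R) * (2 * Q) ^ 2) := by
          gcongr
          linarith
      _ = 5 * d + 40 * (c * d) * (Q ^ 2 / R) := by ring
      _ ≤ 5 * d + 40 * 7 * (Q ^ 2 / R) := by gcongr
      _ = _ := by ring

lemma count_energy {Q R G c d B : ℝ} {j : ℕ} (hj : j ≠ 0) (hQ : 1 / 2 ≤ Q) (hR : 1 ≤ R)
    (hG : 0 ≤ G) (hd : 1 ≤ d) (hc : 1 ≤ c * d) (hc' : c * d ≤ 7) (hB : TauLe ((2 * Q) ^ j) B)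
    (h1 : d ≤ (Q * G) ^ j) (h2 : (Q ^ 2) ^ j ≤ R * (Q * G) ^ j)
    {S : Finset (ℕ × ℕ)} (hS : ∀ p ∈ S, Good Q (c / R) c p) :
    (S.card : ℝ) ≤ 1200 * B ^ 4 * (Q * G) := by
  have hc0 : 0 < c := pos_of_mul_one_le hd hc
  have hQ0 : 0 < Q := by linarith
  have hj1 : (1 : ℝ) ≤ j := by exact_mod_cast Nat.one_le_iff_ne_zero.mpr hj
  have h3 := energy (c := c) (K := 2 * d) (η := c / R) hj (by linarith) (by positivity)
    (by positivity) hB (fun p hp => (hS p hp).red hQ0) fun p hp => by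
      obtain ⟨k, hk⟩ := (hS p hp).2
      exact ⟨k, hk.abs_le hQ0 hR hd hc, hk.near⟩
  refine le_of_pow_le_pow_left₀ hj (by positivity) (h3.trans ?_)
  have h4 : (Q ^ 2) ^ j / R ≤ (Q * G) ^ j := (div_le_iff₀' (by linarith)).mpr h2
  have h5 : (j : ℝ) ≤ 2 ^ j := by exact_mod_cast Nat.lt_two_pow_self.le
  have h6 : (75 : ℝ) ≤ 75 ^ j := le_self_pow₀ (by norm_num) hj
  have h7 : (1 : ℝ) ≤ 4 ^ j := one_le_pow₀ (by norm_num)
  have h8 : (2 * (j * (2 * d)) + 1) * (1 + 2 * (j * (c / R)) * ((2 * Q) ^ j) ^ 2) ≤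
      (1200 * (Q * G)) ^ j := by
    calc _ ≤ 5 * j * d * (1 + 2 * (j * (c / R)) * ((2 * Q) ^ j) ^ 2) := by
          gcongr
          nlinarith
      _ = 5 * j * d + 10 * j ^ 2 * (c * d) * 4 ^ j * ((Q ^ 2) ^ j / R) := by
          rw [← pow_mul (2 * Q), mul_comm j 2, pow_mul, mul_pow 2 Q 2, mul_pow]
          norm_num
          ring
      _ ≤ 5 * (j * j * 4 ^ j) * (Q * G) ^ j + 10 * j ^ 2 * 7 * 4 ^ j * (Q * G) ^ j := by
          gcongr
          exact (le_mul_of_one_le_right (by linarith) hj1).trans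
            (le_mul_of_one_le_right (by positivity) h7)
      _ = 75 * (j * j * 4 ^ j) * (Q * G) ^ j := by ring
      _ ≤ 75 ^ j * (2 ^ j * 2 ^ j * 4 ^ j) * (Q * G) ^ j := by gcongr
      _ = _ := by
          rw [← mul_pow, ← mul_pow, ← mul_pow, ← mul_pow]
          norm_num
  calc _ ≤ B ^ (4 * j) * (1200 * (Q * G)) ^ j := by
        have : 0 ≤ B ^ (4 * j) := by rw [pow_mul]; positivity
        gcongr
    _ = _ := by
        rw [pow_mul, ← mul_pow]
        ring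

lemma vol_aux {Q c l u E : ℝ} {n : ℕ} (hQ : 0 < Q) (hE : 200 ≤ E) (hn : 7 ≤ n) (hu : 1 ≤ u)
    (hc : 0 < c) (hl : 0 < l) {Z : ℝ} (hZ : Z * (10 ^ 4 * Q ^ 2 * c ^ 6 * l ^ 6) = Q ^ 6 * u * E ^ n) :
    2 * 10 ^ 7 * Q ^ 4 * (1 / (c * l)) ^ 6 ≤ Z := by
  refine le_of_mul_le_mul_right (a := 10 ^ 4 * Q ^ 2 * c ^ 6 * l ^ 6) ?_ (by positivity)
  rw [hZ]
  have h1 : (200 : ℝ) ^ 7 ≤ E ^ n :=
    (pow_le_pow_left₀ (by norm_num) hE 7).trans (pow_le_pow_right₀ (by linarith) hn)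
  calc _ = Q ^ 6 * 1 * (2 * 10 ^ 11) := by field_simp
    _ ≤ Q ^ 6 * u * E ^ n := by
      gcongr
      linarith

lemma count_det {Q R G c d B y : ℝ} {w : ℕ} (hw : w ≠ 0) (hQ : 1 / 2 ≤ Q) (hR : 1 ≤ R)
    (hG : 1 ≤ G) (hd : 1 ≤ d) (hc : 1 ≤ c * d) (hc' : c * d ≤ 7) (hy : 1 ≤ y)
    (hyw : R * G ≤ y ^ w) (hdX : d ≤ R * G) (hB : TauLe (512 * (R * G) ^ 24) B)
    (v1 : d ^ 4 ≤ R ^ 2 * Q * G ^ 7) (v2 : d ^ 5 ≤ R * Q ^ 4 * G ^ 10)
    (v3 : d ^ 6 ≤ Q ^ 8 * G ^ 14) (hL : c * (Q * G * (200 * y)) ≤ 1)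
    {S : Finset (ℕ × ℕ)} (hS : ∀ p ∈ S, Good Q (c / R) c p) :
    (S.card : ℝ) ≤ 783000 * (w + 1) * B * y * (Q * G) := by
  classical
  have hc0 : 0 < c := pos_of_mul_one_le hd hc
  have hQ0 : 0 < Q := by linarith
  have hX : 1 ≤ R * G := by linarith
  have hB1 : 1 ≤ B := by
    simpa using hB 1 one_ne_zero (by
      have := one_le_pow₀ (n := 24) hX
      push_cast
      linarith)
  obtain ⟨E, hE⟩ : ∃ E, E = 200 * y := ⟨_, rfl⟩
  rw [← hE] at hL
  have hE1 : 200 ≤ E := by linarith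
  obtain ⟨l, hl⟩ : ∃ l, l = Q * G * E := ⟨_, rfl⟩
  rw [← hl] at hL
  have hl1 : 100 ≤ l := by
    have : 1 / 2 * 1 * 200 ≤ Q * G * E := by gcongr
    linarith
  have hl0 : 0 < l := by linarith
  have hld : l ≤ d := le_of_mul_le_mul_left (hL.trans hc) hc0
  have hQE : Q * E ≤ R := by
    refine le_of_mul_le_mul_right ?_ (by linarith : 0 < G)
    linarith
  obtain ⟨L, hLdef⟩ : ∃ L, L = 1 / (c * l) := ⟨_, rfl⟩
  have hL1 : 1 ≤ L := by
    rw [hLdef]
    exact (one_le_div (by positivity)).mpr hL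
  have hcL : c * L = 1 / l := by
    rw [hLdef]
    field_simp
  have hLd : L ≤ d := by
    refine le_of_mul_le_mul_left (le_trans ?_ hc) hc0
    rw [hcL]
    exact (div_le_one hl0).mpr (by linarith)
  have hsm : Small w Q (c / R) c L (1 / E) := by
    have a1 : c * L ≤ 1 / 10 := by
      rw [hcL]
      exact one_div_le_one_div_of_le (by norm_num) (by linarith)
    refine ⟨hQ, ?_, hc0.ne', ?_, ?_, ?_, ?_, ?_⟩
    · exact (div_le_self hc0.le hR).trans ((le_mul_of_one_le_right hc0.le hL1).trans a1)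
    · rwa [abs_of_pos hc0]
    · rw [abs_of_pos hc0, mul_div_assoc', div_mul_eq_mul_div, one_mul,
        div_le_div_iff₀ (by linarith) (by linarith)]
      nlinarith
    · rw [abs_of_pos hc0, mul_right_comm, hcL, div_mul_eq_mul_div, one_mul,
        div_le_div_iff₀ hl0 (by linarith), one_mul, hl]
      have : Q * 1 * E ≤ Q * G * E := by gcongr
      linarith
    · have e : 100 * (1 / E) = 1 / (2 * y) := by
        rw [hE]
        field_simp
        norm_num
      rw [e, one_div_pow, div_mul_eq_mul_div, one_mul, div_lt_one (by positivity), mul_pow]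
      have : (2 : ℝ) ≤ 2 ^ w := le_self_pow₀ (by norm_num) hw
      nlinarith
    · rw [mul_one_div, div_lt_one (by linarith)]
      linarith
  obtain ⟨Y, hY⟩ : ∃ Y, Y = R / (100 * Q * c) := ⟨_, rfl⟩
  obtain ⟨V, hV⟩ : ∃ V, V = l ^ 4 / (100 * Q) := ⟨_, rfl⟩
  have hY0 : 0 < Y := by rw [hY]; positivity
  have hV0 : 0 < V := by rw [hV]; positivity
  have hY1 : Y ≤ Y * l := le_mul_of_one_le_right hY0.le (by linarith)
  have hY2 : Y * l ≤ Y * l ^ 2 := mul_le_mul_of_nonneg_left (by nlinarith) hY0.le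
  have u1 : ∀ n : ℕ, ∀ z : ℝ, d ^ n ≤ z → 1 ≤ z * c ^ n := fun n z h =>
    (one_le_pow₀ hc).trans (by
      rw [mul_pow, mul_comm]
      exact mul_le_mul_of_nonneg_right h (by positivity))
  have hint : ∀ (x : ℝ) (T : Finset ℤ), (∀ t ∈ T, 0 ≤ t ∧ (t : ℝ) ≤ L) →
      (∀ t ∈ T, ∃ p : ℕ × ℕ, Nat.Coprime p.1 p.2 ∧ Nr Q (c / R) (x + c * t) p.1 p.2) →
      (T.card : ℝ) ≤ 3 + 12 * B * (w + 1) := by
    intro x T hT hN
    refine card_interval (Y := Y) (Z0 := min Y V) (Z1 := min (Y * l) V) (Z2 := min (Y * l ^ 2) V)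
      hsm hc0 hL1 (lt_min hY0 hV0) (min_le_min_right _ hY1) (min_le_min_right _ hY2)
      (min_le_left _ _) ?_ ?_ ?_ ?_ ?_ ?_ (hB.mono ?_) hT hN
    · rw [hcL]
      refine (mul_le_mul_of_nonneg_right (min_le_left _ _) (by positivity)).trans_eq ?_
      field_simp
    · rw [hcL]
      refine (mul_le_mul_of_nonneg_right (min_le_left _ _) (by positivity)).trans_eq ?_
      field_simp
    · rw [hY]
      refine le_of_eq ?_
      field_simp
    · rw [hcL]
      refine (mul_le_mul_of_nonneg_right (mul_le_mul_of_nonneg_left (min_le_right _ _)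
        (by positivity)) (by positivity)).trans_eq ?_
      rw [hV]
      field_simp
    · rcases min_choice (Y * l ^ 2) V with e | e
      · have : 100 * Q * (Y * l ^ 2) * (c * L) ^ 3 = R * L := by
          rw [hcL, hY, hLdef]
          field_simp
        rw [e, this]
        exact one_le_mul_of_one_le_of_one_le hR hL1
      · have : 100 * Q * V * (c * L) ^ 3 = l := by
          rw [hcL, hV]
          field_simp
        rw [e, this]
        linarith
    · rw [hLdef]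
      have w1 : 2 * 10 ^ 7 * Q ^ 4 * (1 / (c * l)) ^ 6 ≤ Y * (Y * l) :=
        vol_aux hQ0 hE1 le_rfl (u1 4 _ v1) hc0 hl0 (by
          rw [hY, hl]
          field_simp
          norm_num)
      have w2 : 2 * 10 ^ 7 * Q ^ 4 * (1 / (c * l)) ^ 6 ≤ Y * V :=
        vol_aux (n := 10) hQ0 hE1 (by norm_num) (u1 5 _ v2) hc0 hl0 (by
          rw [hY, hV, hl]
          field_simp
          norm_num)
      have w3 : 2 * 10 ^ 7 * Q ^ 4 * (1 / (c * l)) ^ 6 ≤ V * V :=
        vol_aux (n := 14) hQ0 hE1 (by norm_num) (u1 6 _ v3) hc0 hl0 (by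
          rw [hV, hl]
          field_simp
          norm_num)
      rcases le_total Y V with h | h
      · rw [min_eq_left h]
        rcases min_choice (Y * l) V with e | e <;> rwa [e]
      · rwa [min_eq_right h, min_eq_right (h.trans hY1)]
    · have a1 : V ≤ (R * G) ^ 4 / 50 := by
        rw [hV]
        exact div_le_div₀ (by positivity) (pow_le_pow_left₀ hl0.le (hld.trans hdX) 4)
          (by norm_num) (by linarith)
      have a2 : 10 * min (Y * l ^ 2) V + 1 ≤ 2 * (R * G) ^ 4 := by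
        have := min_le_right (Y * l ^ 2) V
        have := one_le_pow₀ (n := 4) hX
        linarith
      have a3 : 0 < min (Y * l ^ 2) V := lt_min (by positivity) hV0
      calc _ ≤ 8 * (2 * (R * G) ^ 4) ^ 6 := by gcongr
        _ = _ := by ring
  choose! k hk using fun p hp => (hS p hp).2
  have h1 := card_cover (c := c) (η := c / R) (by positivity) (fun p hp => (hS p hp).red hQ0)
    (T := S.image k) fun p hp => ⟨k p, mem_image_of_mem _ hp, (hk p hp).near⟩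
  have hL0 : 0 < L := by linarith
  have hkb : ∀ s ∈ S.image k, |(s : ℝ)| ≤ 2 * d := fun s hs => by
    obtain ⟨p, hp, rfl⟩ := mem_image.mp hs
    exact (hk p hp).abs_le hQ0 hR hd hc
  have h2 := card_le_mul_real (S := S.image k) (T := range (⌊4 * d / L⌋₊ + 1))
    (fun s => ⌊(s + 2 * d) / L⌋₊) (M := 3 + 12 * B * (w + 1))
    (fun s hs => mem_range.mpr (Nat.lt_succ_of_le (Nat.floor_le_floor
      (div_le_div_of_nonneg_right (by linarith [(abs_le.mp (hkb s hs)).2]) hL0.le))))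
    fun m _ T hT hm => by
      rw [← card_image_of_injective T (sub_left_injective (b := ⌈m * L - 2 * d⌉))]
      refine hint (⌈m * L - 2 * d⌉ * c) _ (fun t ht => ?_) fun t ht => ?_
      · obtain ⟨s, hs, rfl⟩ := mem_image.mp ht
        have a0 : 0 ≤ (s + 2 * d) / L :=
          div_nonneg (by linarith [(abs_le.mp (hkb s (hT hs))).1]) hL0.le
        have a1 := Nat.floor_le a0
        have a2 := Nat.lt_floor_add_one ((s + 2 * d) / L)
        rw [hm s hs] at a1 a2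
        rw [le_div_iff₀ hL0] at a1
        rw [div_lt_iff₀ hL0] at a2
        refine ⟨sub_nonneg.mpr (Int.ceil_le.mpr (by linarith)), ?_⟩
        push_cast
        linarith [Int.le_ceil (m * L - 2 * d)]
      · obtain ⟨s, hs, rfl⟩ := mem_image.mp ht
        obtain ⟨p, hp, rfl⟩ := mem_image.mp (hT hs)
        refine ⟨p, (hS p hp).1, ?_⟩
        have e : (⌈m * L - 2 * d⌉ : ℝ) * c + c * ((k p - ⌈m * L - 2 * d⌉ : ℤ) : ℝ) = k p * c := by
          push_cast
          ring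
        rw [e]
        exact hk p hp
  have h3 : ((range (⌊4 * d / L⌋₊ + 1)).card : ℝ) ≤ 29 * l := by
    rw [card_range]
    push_cast
    have a1 := Nat.floor_le (by positivity : 0 ≤ 4 * d / L)
    have a2 : 4 * d / L = 4 * (c * d) * l := by
      rw [hLdef]
      field_simp
    have a3 : 4 * (c * d) * l ≤ 4 * 7 * l := by gcongr
    linarith
  have h4 : 1 + 2 * (c / R) * (2 * Q) ^ 2 ≤ 9 := by
    have a1 : c * Q ≤ 1 := by
      refine le_trans (mul_le_mul_of_nonneg_left ?_ hc0.le) hL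
      rw [hl, mul_assoc]
      exact le_mul_of_one_le_right hQ0.le (by nlinarith)
    have a2 : Q / R ≤ 1 := (div_le_one (by linarith)).mpr (by nlinarith)
    have a3 : c * Q * (Q / R) ≤ 1 * 1 := by gcongr
    have a4 : 2 * (c / R) * (2 * Q) ^ 2 = 8 * (c * Q * (Q / R)) := by ring
    linarith
  have h5 : 3 + 12 * B * (w + 1) ≤ 15 * B * (w + 1) := by
    have : (1 : ℝ) * 1 ≤ B * (w + 1) := by
      gcongr
      linarith [(Nat.cast_nonneg w : (0 : ℝ) ≤ w)]
    linarith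
  calc (S.card : ℝ) ≤ ((S.image k).card : ℝ) * 9 := h1.trans (by gcongr)
    _ ≤ 29 * l * (15 * B * (w + 1)) * 9 := by
        gcongr
        exact h2.trans (by gcongr)
    _ = _ := by
        rw [hl, hE]
        ring

/-- The counting theorem. -/
theorem count {Q R G c d B y : ℝ} {w : ℕ} (hw : w ≠ 0) (hQ : 1 / 2 ≤ Q) (hR : 1 ≤ R)
    (hG : 1 ≤ G) (hd : 1 ≤ d) (hc : 1 ≤ c * d) (hc' : c * d ≤ 7) (hy : 1 ≤ y)
    (hyw : R * G ≤ y ^ w) (hdX : d ≤ R * G) (hQX : Q ≤ R * G)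
    (hB : TauLe (512 * (R * G) ^ 24) B) (hB' : TauLe ((2 * (R * G)) ^ w) B)
    (d5 : d ^ 5 ≤ R ^ 3 * G ^ 14) (d8 : d ^ 8 ≤ R ^ 5 * G ^ 16)
    {S : Finset (ℕ × ℕ)} (hS : ∀ p ∈ S, Good Q (c / R) c p) :
    (S.card : ℝ) ≤ 10 ^ 6 * (w + 1) * B ^ 4 * y * (Q * G) := by
  have hQ0 : 0 < Q := by linarith
  have hR0 : 0 < R := by linarith
  have hG0 : 0 < G := by linarith
  have hc0 : 0 < c := pos_of_mul_one_le hd hc
  have hX : 1 ≤ R * G := by linarith
  have hB1 : 1 ≤ B := by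
    simpa using hB 1 one_ne_zero (by
      have := one_le_pow₀ (n := 24) hX
      push_cast
      linarith)
  have hB4 : B ≤ B ^ 4 := le_self_pow₀ hB1 (by norm_num)
  have hw1 : (1 : ℝ) ≤ w + 1 := by linarith [(Nat.cast_nonneg w : (0 : ℝ) ≤ w)]
  have fin : ∀ A : ℝ, A ≤ 10 ^ 6 → (S.card : ℝ) ≤ A * (w + 1) * B ^ 4 * y * (Q * G) →
      (S.card : ℝ) ≤ 10 ^ 6 * (w + 1) * B ^ 4 * y * (Q * G) := fun A h1 h2 =>
    h2.trans (by gcongr)
  have fin' : ∀ A : ℝ, 0 ≤ A → A ≤ 10 ^ 6 → (S.card : ℝ) ≤ A * y * (Q * G) →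
      (S.card : ℝ) ≤ 10 ^ 6 * (w + 1) * B ^ 4 * y * (Q * G) := fun A h0 h1 h2 =>
    fin A h1 (h2.trans (by
      calc A * y * (Q * G) = A * 1 * 1 * y * (Q * G) := by ring
        _ ≤ _ := by
          gcongr
          linarith))
  have d3 : d ^ 3 ≤ R ^ 2 * G ^ 11 := by
    refine le_of_pow_le_pow_left₀ (n := 5) (by norm_num) (by positivity) ?_
    calc (d ^ 3) ^ 5 = (d ^ 5) ^ 3 := by ring
      _ ≤ (R ^ 3 * G ^ 14) ^ 3 := by gcongr
      _ = R ^ 9 * G ^ 42 := by ring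
      _ ≤ R ^ 10 * G ^ 55 := by
        gcongr <;> norm_num
      _ = _ := by ring
  obtain ⟨z, rfl⟩ : ∃ z, Q = z * G := ⟨Q / G, by field_simp⟩
  have hz0 : 0 < z := (pos_iff_pos_of_mul_pos hQ0).mpr hG0
  rcases le_or_gt z y with hz | hz
  · refine fin' 9 (by norm_num) (by norm_num) ?_
    have h1 : S ⊆ Icc 1 ⌊2 * (z * G)⌋₊ ×ˢ Icc 1 ⌊2 * (z * G)⌋₊ := fun p hp => by
      have := (hS p hp).red hQ0
      exact mem_product.mpr ⟨mem_Icc.mpr ⟨this.pos1, Nat.le_floor this.le1⟩,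
        mem_Icc.mpr ⟨this.pos2, Nat.le_floor this.le2⟩⟩
    have h2 := card_le_card h1
    rw [card_product, Nat.card_Icc, Nat.add_sub_cancel] at h2
    have h3 := Nat.floor_le (by positivity : 0 ≤ 2 * (z * G))
    calc (S.card : ℝ) ≤ (⌊2 * (z * G)⌋₊ : ℝ) * ⌊2 * (z * G)⌋₊ := by exact_mod_cast h2
      _ ≤ 2 * (z * G) * (2 * (z * G)) := by gcongr
      _ = 4 * z * (z * G * G) := by ring
      _ ≤ _ := by
        gcongr
        norm_num
  rcases le_or_gt (z ^ 2) R with h2 | h2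
  · have hz1 : 1 ≤ z := hy.trans hz.le
    have hzw : R < z ^ w :=
      ((le_mul_of_one_le_right hR0.le hG).trans hyw).trans_lt
        (pow_lt_pow_left₀ hz (by linarith) hw)
    have hex : ∃ j, R < z ^ (j + 1) :=
      ⟨w, hzw.trans_le (pow_le_pow_right₀ hz1 (Nat.le_succ w))⟩
    have hj := Nat.find_spec hex
    have hjw : Nat.find hex ≤ w :=
      Nat.find_min' hex (hzw.trans_le (pow_le_pow_right₀ hz1 (Nat.le_succ w)))
    have hj2 : 2 ≤ Nat.find hex := by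
      by_contra h
      exact absurd (hj.trans_le (pow_le_pow_right₀ hz1 (by omega))) (not_lt.mpr h2)
    have hj3 : z ^ Nat.find hex ≤ R := by
      have := Nat.find_min hex (m := Nat.find hex - 1) (by omega)
      rwa [Nat.sub_add_cancel (by omega), not_lt] at this
    generalize Nat.find hex = j at *
    refine fin 1200 (by norm_num) ((count_energy (j := j) (by omega) hQ hR hG0.le hd hc hc'
      (hB'.mono ?_) ?_ ?_ hS).trans ?_)
    · exact (pow_le_pow_left₀ (by positivity) (by linarith) j).trans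
        (pow_le_pow_right₀ (by linarith) hjw)
    · refine le_of_pow_le_pow_left₀ (n := 3) (by norm_num) (by positivity) (d3.trans ?_)
      calc R ^ 2 * G ^ 11 ≤ (z ^ (j + 1)) ^ 2 * G ^ 11 := by gcongr
        _ = z ^ ((j + 1) * 2) * G ^ 11 := by rw [pow_mul]
        _ ≤ z ^ (j * 3) * G ^ (j * 6) :=
          mul_le_mul (pow_le_pow_right₀ hz1 (by omega)) (pow_le_pow_right₀ hG (by omega))
            (by positivity) (by positivity)
        _ = _ := by
          rw [mul_pow, mul_pow]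
          ring
    · calc ((z * G) ^ 2) ^ j = z ^ j * (z * G * G) ^ j := by
            rw [← mul_pow]
            ring
        _ ≤ _ := by gcongr
    · calc 1200 * B ^ 4 * (z * G * G) = 1200 * 1 * B ^ 4 * 1 * (z * G * G) := by ring
        _ ≤ _ := by gcongr
  rcases le_or_gt (c * (z * G * G * (200 * y))) 1 with h3 | h3
  · have a1 : R * G ^ 2 ≤ (z * G) ^ 2 := by
      rw [mul_pow]
      gcongr
    refine fin 783000 (by norm_num) ((count_det hw hQ hR hG hd hc hc' hy hyw hdX hB ?_ ?_ ?_ h3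
      hS).trans (by gcongr))
    · refine le_of_pow_le_pow_left₀ (n := 2) (by norm_num) (by positivity) ?_
      calc (d ^ 4) ^ 2 = d ^ 8 := by ring
        _ ≤ R ^ 5 * G ^ 16 := d8
        _ = R ^ 4 * (R * G ^ 2) * G ^ 14 := by ring
        _ ≤ R ^ 4 * (z * G) ^ 2 * G ^ 14 := by gcongr
        _ = _ := by ring
    · calc d ^ 5 ≤ R ^ 3 * G ^ 14 := d5
        _ = R * (R * G ^ 2) ^ 2 * G ^ 10 := by ring
        _ ≤ R * ((z * G) ^ 2) ^ 2 * G ^ 10 := by gcongr
        _ = _ := by ring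
    · calc d ^ 6 = (d ^ 3) ^ 2 := by ring
        _ ≤ (R ^ 2 * G ^ 11) ^ 2 := by gcongr
        _ = (R * G ^ 2) ^ 4 * G ^ 14 := by ring
        _ ≤ ((z * G) ^ 2) ^ 4 * G ^ 14 := by gcongr
        _ = _ := by ring
  · refine fin' 7280 (by norm_num) (by norm_num) ((count_trivial hQ0 hR hd hc hc' hS).trans ?_)
    have a1 : d ≤ 7 * (z * G * G * (200 * y)) := by
      refine le_of_mul_le_mul_left ?_ hc0
      linarith
    have a2 : (z * G) ^ 2 / R ≤ z * G * G := by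
      rw [div_le_iff₀ hR0]
      nlinarith
    have a3 : z * G * G ≤ y * (z * G * G) := le_mul_of_one_le_left (by positivity) hy
    linarith

end Pool.Agent.Lib.MP_ecd12e_nt
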