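import Pool.Agent.Lib.MP_ecd12e_nt.Rolle

/-! Few good points have numerators and denominators given by quadratics. -/

namespace Pool.Agent.Lib.MP_ecd12e_nt

open Finset Polynomial

lemma sum_half (w : ℕ) : ∑ l ∈ range (2 * (w + 1)), l / 2 = w * (w + 1) := by
  induction w with
  | zero => decide
  | succ w ih =>
    have e : 2 * (w + 1 + 1) = 2 * (w + 1) + 1 + 1 := by ring
    have e1 : 2 * (w + 1) / 2 = w + 1 := by omega
    have e2 : (2 * (w + 1) + 1) / 2 = w + 1 := by omega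
    rw [e, sum_range_succ, sum_range_succ, ih, e1, e2]
    ring

lemma sum_full (w : ℕ) : ∑ l ∈ range (2 * (w + 1)), l = (2 * w + 1) * (w + 1) := by
  induction w with
  | zero => decide
  | succ w ih =>
    have e : 2 * (w + 1 + 1) = 2 * (w + 1) + 1 + 1 := by ring
    rw [e, sum_range_succ, sum_range_succ, ih]
    ring

/-- A quadratic with integer values at many close integers has a large leading coefficient. -/
lemma vander {w : ℕ} (t b : Fin (2 * (w + 1)) → ℤ) (hinj : Function.Injective t)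
    {μ p0 p1 p2 : ℝ} (hμ0 : 0 ≤ μ) (hμ : ∀ i j, |(t i : ℝ) - t j| ≤ μ) (hp : p2 ≠ 0)
    (hb : ∀ i, (b i : ℝ) = p0 + p1 * t i + p2 * t i ^ 2) : 1 ≤ (|p2| * μ ^ 2) ^ w * μ := by
  let P : ℝ[X] := X ^ 2 + (C (p1 / p2) * X + C (p0 / p2))
  have hlt : (C (p1 / p2) * X + C (p0 / p2) : ℝ[X]).degree < (2 : ℕ) :=
    degree_linear_le.trans_lt (by norm_num)
  have hP : P.Monic := monic_X_pow_add hlt
  have hPd : P.natDegree = 2 := by
    refine natDegree_eq_of_degree_eq_some ?_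
    rw [degree_add_eq_left_of_degree_lt (by rwa [degree_X_pow]), degree_X_pow]
  have hV := Matrix.det_eval_matrixOfPolynomials_eq_det_vandermonde (fun i => (t i : ℝ))
    (fun l : Fin (2 * (w + 1)) => P ^ (l.val / 2) * X ^ (l.val % 2))
    (fun l => by
      rw [(hP.pow _).natDegree_mul (monic_X_pow _), hP.natDegree_pow, hPd, natDegree_X_pow]
      omega)
    fun l => (hP.pow _).mul (monic_X_pow _)
  let M : Matrix (Fin (2 * (w + 1))) (Fin (2 * (w + 1))) ℤ :=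
    Matrix.of fun i l => b i ^ (l.val / 2) * t i ^ (l.val % 2)
  have hM : (M.det : ℝ) = (∏ l : Fin (2 * (w + 1)), p2 ^ (l.val / 2)) *
      (Matrix.vandermonde fun i => (t i : ℝ)).det := by
    rw [hV, ← Matrix.det_mul_row, Int.cast_det]
    refine congrArg Matrix.det (Matrix.ext fun i l => ?_)
    have e : (b i : ℝ) = p2 * P.eval (t i : ℝ) := by
      simp only [P, eval_add, eval_pow, eval_X, eval_mul, eval_C, hb]
      field_simp
      ring
    simp only [M, Matrix.map_apply, Matrix.of_apply, eval_mul, eval_pow, eval_X]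
    push_cast
    rw [e, mul_pow, mul_assoc]
  have hne : (M.det : ℝ) ≠ 0 := by
    rw [hM]
    refine mul_ne_zero (prod_ne_zero_iff.mpr fun l _ => pow_ne_zero _ hp) ?_
    exact Matrix.det_vandermonde_ne_zero_iff.mpr fun i j h => hinj (by exact_mod_cast h)
  have h1 : (1 : ℝ) ≤ |(M.det : ℝ)| := by
    exact_mod_cast Int.one_le_abs (by exact_mod_cast hne)
  have h2 : |(Matrix.vandermonde fun i => (t i : ℝ)).det| ≤ μ ^ ((2 * w + 1) * (w + 1)) := by
    rw [Matrix.det_vandermonde, abs_prod, ← sum_full, ← sum_range_reflect, ← prod_pow_eq_pow_sum,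
      ← Fin.prod_univ_eq_prod_range fun l => μ ^ (2 * (w + 1) - 1 - l)]
    refine prod_le_prod (fun i _ => abs_nonneg _) fun i _ => ?_
    rw [abs_prod, ← Fin.card_Ioi, ← prod_const]
    exact prod_le_prod (fun j _ => abs_nonneg _) fun j _ => hμ j i
  have h3 : |∏ l : Fin (2 * (w + 1)), p2 ^ (l.val / 2)| = |p2| ^ (w * (w + 1)) := by
    rw [Fin.prod_univ_eq_prod_range fun l => p2 ^ (l / 2), prod_pow_eq_pow_sum, sum_half, abs_pow]
  rw [hM, abs_mul, h3] at h1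
  have h4 : 1 ≤ ((|p2| * μ ^ 2) ^ w * μ) ^ (w + 1) := by
    refine (h1.trans (mul_le_mul_of_nonneg_left h2 (by positivity))).trans_eq ?_
    ring
  exact (one_le_pow_iff_of_nonneg (by positivity) (Nat.succ_ne_zero w)).mp h4

/-- The smallness conditions of the determinant step. -/
structure Small (w : ℕ) (Q η c L κ : ℝ) : Prop where
  hQ : 1 / 2 ≤ Q
  hη : η ≤ 1 / 10
  hc : c ≠ 0
  hcL : |c| * L ≤ 1 / 10
  k1 : Q * η ≤ κ * |c|
  k2 : |c| * Q * L ≤ κ
  k3 : (100 * κ) ^ w * L < 1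
  k4 : 100 * κ < 1

lemma Small.neg {w : ℕ} {Q η c L κ : ℝ} (h : Small w Q η c L κ) : Small w Q η (-c) L κ :=
  ⟨h.hQ, h.hη, neg_ne_zero.mpr h.hc, by simpa using h.hcL, by simpa using h.k1,
    by simpa using h.k2, h.k3, h.k4⟩

lemma quad_zero {w : ℕ} {Q η c L κ x p0 p1 p2 q0 q1 q2 : ℝ} (h : Small w Q η c L κ)
    {e : ℕ → ℤ} (he : StrictMonoOn e (Set.Iic (6 * (w + 1)))) (b : ℕ → ℤ)
    (hL : (e (6 * (w + 1)) : ℝ) - e 0 ≤ L)
    (hN : ∀ i ≤ 6 * (w + 1), Nr Q η (x + c * e i) (q0 + q1 * e i + q2 * e i ^ 2)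
      (p0 + p1 * e i + p2 * e i ^ 2))
    (hb : ∀ i ≤ 6 * (w + 1), (b i : ℝ) = p0 + p1 * e i + p2 * e i ^ 2) : p2 = 0 := by
  by_contra hp
  have hQ : 0 < Q := by linarith [h.hQ]
  have mono : ∀ i j, i ≤ j → j ≤ 6 * (w + 1) → (e i : ℝ) ≤ e j := fun i j h1 h2 => by
    exact_mod_cast he.monotoneOn (Set.mem_Iic.mpr (h1.trans h2)) (Set.mem_Iic.mpr h2) h1
  obtain ⟨k, hk, hmin⟩ := exists_min_image (range 3)
    (fun k => (e (2 * (w + 1) * (k + 1)) : ℝ) - e (2 * (w + 1) * k)) ⟨0, by simp⟩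
  have hk3 : k + 1 ≤ 3 := mem_range.mp hk
  have hk' : 2 * (w + 1) * (k + 1) ≤ 6 * (w + 1) := by nlinarith
  set μ := (e (2 * (w + 1) * (k + 1)) : ℝ) - e (2 * (w + 1) * k) with hμ
  have hμ1 : 1 ≤ μ := by
    have : e (2 * (w + 1) * k) + 1 ≤ e (2 * (w + 1) * (k + 1)) :=
      he (Set.mem_Iic.mpr (by nlinarith)) (Set.mem_Iic.mpr hk') (by nlinarith)
    have : (e (2 * (w + 1) * k) : ℝ) + 1 ≤ e (2 * (w + 1) * (k + 1)) := by exact_mod_cast this
    linarith
  have m0 := hmin 0 (by simp)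
  have m1 := hmin 1 (by simp)
  have m2 := hmin 2 (by simp)
  have e3 : 2 * (w + 1) * (2 + 1) = 6 * (w + 1) := by ring
  simp only [mul_zero, zero_add, e3] at m0 m1 m2
  have h1 := quad_bound (s0 := e 0) (s1 := e (2 * (w + 1) * 1)) (s2 := e (2 * (w + 1) * 2))
    (s3 := e (6 * (w + 1))) (x := x) (p0 := p0) (p1 := p1) (p2 := p2) (q0 := q0) (q1 := q1)
    (q2 := q2) hQ h.hη h.hc h.hcL h.k1 h.k2 hμ1 (by linarith) (by linarith)
    (by linarith) hL (by
      simp only [List.mem_cons, List.not_mem_nil, or_false]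
      rintro s (rfl | rfl | rfl | rfl) <;> exact hN _ (by omega))
  have hidx : ∀ i : Fin (2 * (w + 1)), 2 * (w + 1) * k + i ≤ 2 * (w + 1) * (k + 1) := fun i => by
    have := i.2
    nlinarith
  have h2 := vander (w := w) (fun i => e (2 * (w + 1) * k + i)) (fun i => b (2 * (w + 1) * k + i))
    (fun i j hij => by
      have := he.injOn (Set.mem_Iic.mpr ((hidx i).trans hk'))
        (Set.mem_Iic.mpr ((hidx j).trans hk')) hij
      exact Fin.ext (by omega))
    (μ := μ) (by linarith) (fun i j => by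
      have a1 := mono _ _ (hidx i) hk'
      have a2 := mono _ _ (hidx j) hk'
      have a3 := mono (2 * (w + 1) * k) _ (Nat.le_add_right _ i) ((hidx i).trans hk')
      have a4 := mono (2 * (w + 1) * k) _ (Nat.le_add_right _ j) ((hidx j).trans hk')
      exact abs_le.mpr ⟨by linarith, by linarith⟩) hp fun i => hb _ ((hidx i).trans hk')
  have hμL : μ ≤ L := by
    have := mono 0 (2 * (w + 1) * k) (Nat.zero_le _) (by nlinarith)
    have := mono _ _ hk' le_rfl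
    linarith
  have h3 : (|p2| * μ ^ 2) ^ w * μ ≤ (100 * κ) ^ w * L :=
    mul_le_mul (pow_le_pow_left₀ (by positivity) h1 w) hμL (by linarith)
      (pow_nonneg (le_trans (by positivity) h1) w)
  linarith [h.k3]

lemma lin_zero {w : ℕ} {Q η c L κ x p0 p1 q0 q1 : ℝ} (h : Small w Q η c L κ)
    {s0 s1 s2 b0 b1 b2 : ℤ} (l1 : s0 < s1) (l2 : s1 < s2) (hL : (s2 : ℝ) - s0 ≤ L)
    (hN : ∀ s ∈ [(s0 : ℝ), s1, s2], Nr Q η (x + c * s) (q0 + q1 * s) (p0 + p1 * s))
    (e0 : (b0 : ℝ) = p0 + p1 * s0) (e1 : (b1 : ℝ) = p0 + p1 * s1)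
    (e2 : (b2 : ℝ) = p0 + p1 * s2) : p1 = 0 := by
  have hQ : 0 < Q := by linarith [h.hQ]
  have l1' : (s0 : ℝ) + 1 ≤ s1 := by exact_mod_cast l1
  have l2' : (s1 : ℝ) + 1 ≤ s2 := by exact_mod_cast l2
  have key : ∀ (μ : ℝ) (z : ℤ), 1 ≤ μ → (s0 : ℝ) + μ ≤ s1 → (s1 : ℝ) + μ ≤ s2 →
      (z : ℝ) = p1 * μ → p1 = 0 := by
    intro μ z h1 h2 h3 h4
    have h5 := lin_bound hQ h.hη h.hc h.hcL h.k1 h.k2 h1 h2 h3 hL hN
    have h6 : |(z : ℝ)| < 1 := by
      rw [h4, abs_mul, abs_of_pos (by linarith : 0 < μ)]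
      linarith [h.k4]
    have h7 : z = 0 := Int.abs_lt_one_iff.mp (by exact_mod_cast h6)
    rw [h7, Int.cast_zero] at h4
    exact (mul_eq_zero.mp h4.symm).resolve_right (by linarith)
  rcases le_total ((s1 : ℝ) - s0) (s2 - s1) with hh | hh
  · exact key (s1 - s0) (b1 - b0) (by linarith) (by linarith) (by linarith)
      (by push_cast; linarith)
  · exact key (s2 - s1) (b2 - b1) (by linarith) (by linarith) (by linarith)
      (by push_cast; linarith)

/-- Good points with the same fraction coincide. -/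
lemma eq_of_same {w : ℕ} {Q η c L κ x a b a' b' : ℝ} (h : Small w Q η c L κ) {s s' : ℤ}
    (N : Nr Q η (x + c * s) a b) (N' : Nr Q η (x + c * s') a' b') (e : a * b' = a' * b) :
    s = s' := by
  have hQ : 0 < Q := by linarith [h.hQ]
  have e' := congrArg Real.log e
  rw [Real.log_mul (hQ.trans_le N.lo1).ne' (hQ.trans_le N'.lo2).ne',
    Real.log_mul (hQ.trans_le N'.lo1).ne' (hQ.trans_le N.lo2).ne'] at e'
  have h1 := abs_le.mp N.near
  have h2 := abs_le.mp N'.near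
  have h3 : |c * ((s : ℝ) - s')| ≤ 2 * η := abs_le.mpr ⟨by linarith, by linarith⟩
  have hC : 0 < |c| := abs_pos.mpr h.hc
  have hη : 0 ≤ η := (abs_nonneg _).trans N.near
  rw [abs_mul] at h3
  have h4 : |(s : ℝ) - s'| < 1 := by
    by_contra hh
    have := mul_le_mul_of_nonneg_left (not_lt.mp hh) hC.le
    nlinarith [h.k1, h.k4, h.hQ]
  exact sub_eq_zero.mp (Int.abs_lt_one_iff.mp (by exact_mod_cast h4))

lemma card_curve {w : ℕ} {Q η c L κ x p0 p1 p2 q0 q1 q2 : ℝ} (h : Small w Q η c L κ)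
    {T : Finset ℤ} (a b : ℤ → ℤ) (hT : ∀ t ∈ T, 0 ≤ t ∧ (t : ℝ) ≤ L)
    (hN : ∀ t ∈ T, Nr Q η (x + c * t) (a t) (b t))
    (ha : ∀ t ∈ T, (a t : ℝ) = q0 + q1 * t + q2 * t ^ 2)
    (hb : ∀ t ∈ T, (b t : ℝ) = p0 + p1 * t + p2 * t ^ 2) : T.card ≤ 6 * (w + 1) := by
  by_contra hcard
  have hle : 6 * (w + 1) + 1 ≤ T.card := by omega
  let e : ℕ → ℤ := fun i =>
    if hi : i < 6 * (w + 1) + 1 then T.orderEmbOfCardLe hle ⟨i, hi⟩ else 0
  have hmem : ∀ i ≤ 6 * (w + 1), e i ∈ T := fun i hi => by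
    simp only [e, dif_pos (Nat.lt_succ_of_le hi)]
    exact orderEmbOfCardLe_mem _ _ _
  have he : StrictMonoOn e (Set.Iic (6 * (w + 1))) := fun i hi j hj hij => by
    simp only [e, dif_pos (Nat.lt_succ_of_le (Set.mem_Iic.mp hi)),
      dif_pos (Nat.lt_succ_of_le (Set.mem_Iic.mp hj))]
    exact (T.orderEmbOfCardLe hle).strictMono hij
  have hL : ∀ i ≤ 6 * (w + 1), (e i : ℝ) - e 0 ≤ L := fun i hi => by
    have h1 : (0 : ℝ) ≤ e 0 := by exact_mod_cast (hT _ (hmem 0 (Nat.zero_le _))).1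
    linarith [(hT _ (hmem i hi)).2]
  have N1 : ∀ i ≤ 6 * (w + 1), Nr Q η (x + c * e i) (q0 + q1 * e i + q2 * e i ^ 2)
      (p0 + p1 * e i + p2 * e i ^ 2) := fun i hi => by
    rw [← ha _ (hmem i hi), ← hb _ (hmem i hi)]
    exact hN _ (hmem i hi)
  have N2 : ∀ i ≤ 6 * (w + 1), Nr Q η (-x + -c * e i) (p0 + p1 * e i + p2 * e i ^ 2)
      (q0 + q1 * e i + q2 * e i ^ 2) := fun i hi => by
    have := (N1 i hi).symm
    rwa [neg_add, ← neg_mul] at this
  have z1 := quad_zero h he (fun i => b (e i)) (hL _ le_rfl) N1 fun i hi => hb _ (hmem i hi)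
  have z2 := quad_zero h.neg he (fun i => a (e i)) (hL _ le_rfl) N2 fun i hi => ha _ (hmem i hi)
  subst z1 z2
  simp only [zero_mul, add_zero] at N1 N2 ha hb
  have i0 : 0 ≤ 6 * (w + 1) := by omega
  have i1 : 1 ≤ 6 * (w + 1) := by omega
  have i2 : 2 ≤ 6 * (w + 1) := by omega
  have l1 : e 0 < e 1 := he (Set.mem_Iic.mpr i0) (Set.mem_Iic.mpr i1) (by norm_num)
  have l2 : e 1 < e 2 := he (Set.mem_Iic.mpr i1) (Set.mem_Iic.mpr i2) (by norm_num)
  have z3 := lin_zero (x := x) (q0 := q0) (q1 := q1) h l1 l2 (hL 2 i2) (by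
      simp only [List.mem_cons, List.not_mem_nil, or_false]
      rintro s (rfl | rfl | rfl) <;> exact N1 _ (by omega))
    (hb _ (hmem 0 i0)) (hb _ (hmem 1 i1)) (hb _ (hmem 2 i2))
  have z4 := lin_zero (x := -x) (q0 := p0) (q1 := p1) h.neg l1 l2 (hL 2 i2) (by
      simp only [List.mem_cons, List.not_mem_nil, or_false]
      rintro s (rfl | rfl | rfl) <;> exact N2 _ (by omega))
    (ha _ (hmem 0 i0)) (ha _ (hmem 1 i1)) (ha _ (hmem 2 i2))
  subst z3 z4
  exact l1.ne (eq_of_same h (N1 0 i0) (N1 1 i1) (by ring))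

end Pool.Agent.Lib.MP_ecd12e_nt
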