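import Mathlib

/-! A discrete mean square is bounded by the number of close pairs of frequencies. -/

namespace Pool.Agent.Lib.MP_ecd12e_nt

open Finset Real

/-- `e(x) = exp (2 π i x)` -/
noncomputable def ee (x : ℝ) : ℂ := Complex.exp (Complex.I * (2 * π * x : ℝ))

lemma ee_add (x y : ℝ) : ee (x + y) = ee x * ee y := by
  rw [ee, ee, ee, ← Complex.exp_add]
  push_cast
  ring_nf

lemma norm_ee (x : ℝ) : ‖ee x‖ = 1 := Complex.norm_exp_I_mul_ofReal _

lemma ee_int (k : ℤ) : ee k = 1 := by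
  rw [ee, ← Complex.exp_int_mul_two_pi_mul_I k]
  push_cast
  ring_nf

lemma ee_nat_mul (j : ℕ) (x : ℝ) : ee (j * x) = ee x ^ j := by
  rw [ee, ee, ← Complex.exp_nat_mul]
  push_cast
  ring_nf

lemma conj_ee (x : ℝ) : (starRingEnd ℂ) (ee x) = ee (-x) := by
  rw [ee, ee, ← Complex.exp_conj, map_mul, Complex.conj_I, Complex.conj_ofReal]
  push_cast
  ring_nf

lemma geom_le (R : ℕ) (x : ℝ) : ‖∑ j ∈ range R, ee (j * x)‖ ≤ R := by
  refine (norm_sum_le _ _).trans_eq ?_
  simp [norm_ee]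

lemma geom_sin (R : ℕ) (x : ℝ) : ‖∑ j ∈ range R, ee (j * x)‖ * |sin (π * x)| ≤ 1 := by
  simp only [ee_nat_mul]
  have h1 := congrArg norm (geom_sum_mul (ee x) R)
  have h2 : ‖ee x - 1‖ = 2 * |sin (π * x)| := by
    rw [ee, Complex.norm_exp_I_mul_ofReal_sub_one, norm_eq_abs, abs_mul, abs_two]
    congr 3
    ring
  have h3 : ‖ee x ^ R - 1‖ ≤ 2 := by
    refine (norm_sub_le _ _).trans ?_
    rw [norm_pow, norm_ee, one_pow, norm_one]
    norm_num
  rw [norm_mul, h2] at h1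
  linarith

lemma geom_kernel {R : ℕ} {x δ : ℝ} (hx : |x| ≤ 1) (hδ0 : 0 ≤ δ) (hδ : δ + 1 ≤ R)
    (h : |R * |x| - δ| ≤ 1) :
    ‖∑ j ∈ range R, ee (j * x)‖ ≤ 3 * R * (1 / (δ + 1) + 1 / (R - δ)) := by
  have h1 := geom_le R x
  have h2 := geom_sin R x
  have h0 := norm_nonneg (∑ j ∈ range R, ee (j * x))
  generalize ‖∑ j ∈ range R, ee (j * x)‖ = g at *
  have hR : (0 : ℝ) ≤ R := Nat.cast_nonneg _
  have h3 := abs_le.mp h
  have key : ∀ y : ℝ, 0 ≤ y → y ≤ 1 / 2 → 2 * y ≤ |sin (π * y)| := by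
    intro y a b
    have := mul_le_sin (x := π * y) (by positivity) (by nlinarith [pi_pos])
    rw [← mul_assoc, div_mul_cancel₀ _ pi_ne_zero] at this
    exact this.trans (le_abs_self _)
  have e : |sin (π * x)| = |sin (π * |x|)| := by
    rcases abs_choice x with e | e <;> rw [e]
    rw [mul_neg, sin_neg, abs_neg]
  have p1 : 0 ≤ 3 * R * (1 / (δ + 1)) := by positivity
  have p2 : 0 ≤ 3 * R * (1 / (R - δ)) :=
    mul_nonneg (by positivity) (one_div_nonneg.mpr (by linarith))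
  rw [e] at h2
  rw [mul_add]
  rcases le_total |x| (1 / 2) with hh | hh
  · have h4 := mul_le_mul_of_nonneg_left (key _ (abs_nonneg x) hh) h0
    have : g ≤ 3 * R * (1 / (δ + 1)) := by
      rw [mul_one_div, le_div_iff₀ (by linarith)]
      nlinarith
    linarith
  · have h4 := mul_le_mul_of_nonneg_left (key (1 - |x|) (by linarith) (by linarith)) h0
    rw [mul_sub π, mul_one, sin_pi_sub] at h4
    have : g ≤ 3 * R * (1 / (R - δ)) := by
      rw [mul_one_div, le_div_iff₀ (by linarith)]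
      nlinarith
    linarith

lemma sum_pairs_le {ι : Type*} (I : Finset ι) (r : ι → ℕ) {R : ℕ} (hr : ∀ n ∈ I, r n ∈ range R)
    (k : ℕ → ℕ → ℝ) (hk : ∀ u ∈ range R, ∀ v ∈ range R, 0 ≤ k u v) (hs : ∀ u v, k u v = k v u)
    {K : ℝ} (hK : ∀ u ∈ range R, ∑ v ∈ range R, k u v ≤ K) :
    ∑ n ∈ I, ∑ m ∈ I, k (r n) (r m) ≤ K * ((I ×ˢ I).filter fun p => r p.1 = r p.2).card := by
  let ν : ℕ → ℝ := fun u => (I.filter fun n => r n = u).card
  have fib : ∀ g : ℕ → ℝ, ∑ n ∈ I, g (r n) = ∑ u ∈ range R, ν u * g u := by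
    intro g
    rw [← sum_fiberwise_of_maps_to hr]
    refine sum_congr rfl fun u _ => ?_
    rw [sum_congr rfl fun n hn => congrArg g (mem_filter.mp hn).2, sum_const, nsmul_eq_mul]
  have e1 : (((I ×ˢ I).filter fun p => r p.1 = r p.2).card : ℝ) = ∑ u ∈ range R, ν u * ν u := by
    rw [← fib ν, card_filter, sum_product]
    push_cast
    refine sum_congr rfl fun n _ => ?_
    simp only [ν, card_filter]
    push_cast
    exact sum_congr rfl fun m _ => by simp only [eq_comm]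
  have e2 : ∑ n ∈ I, ∑ m ∈ I, k (r n) (r m) =
      ∑ u ∈ range R, ∑ v ∈ range R, ν u * ν v * k u v := by
    rw [fib fun u => ∑ m ∈ I, k u (r m)]
    refine sum_congr rfl fun u _ => ?_
    rw [fib fun v => k u v, mul_sum]
    exact sum_congr rfl fun v _ => by ring
  have e3 : ∑ u ∈ range R, ∑ v ∈ range R, ν v * ν v * k u v =
      ∑ u ∈ range R, ∑ v ∈ range R, ν u * ν u * k u v := by
    rw [sum_comm]
    simp only [hs]
  have h1 : ∑ u ∈ range R, ∑ v ∈ range R, ν u * ν u * k u v ≤ K * ∑ u ∈ range R, ν u * ν u := by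
    rw [mul_sum]
    refine sum_le_sum fun u hu => ?_
    rw [← mul_sum, mul_comm K]
    exact mul_le_mul_of_nonneg_left (hK u hu) (mul_self_nonneg _)
  have h2 : 2 * ∑ u ∈ range R, ∑ v ∈ range R, ν u * ν v * k u v ≤
      ∑ u ∈ range R, ∑ v ∈ range R, ν u * ν u * k u v +
        ∑ u ∈ range R, ∑ v ∈ range R, ν v * ν v * k u v := by
    rw [← sum_add_distrib, mul_sum]
    refine sum_le_sum fun u hu => ?_
    rw [← sum_add_distrib, mul_sum]
    refine sum_le_sum fun v hv => ?_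
    nlinarith [mul_nonneg (sq_nonneg (ν u - ν v)) (hk u hu v hv)]
  rw [e1, e2]
  linarith

lemma sum_inv_le (R : ℕ) : ∑ i ∈ range R, 1 / ((i : ℝ) + 1) ≤ 1 + log R := by
  refine le_trans (le_of_eq ?_) (harmonic_le_one_add_log R)
  simp [harmonic]

lemma row_le {R u : ℕ} (hu : u ∈ range R) :
    ∑ v ∈ range R, (1 / (|(u : ℝ) - v| + 1) + 1 / (R - |(u : ℝ) - v|)) ≤ 4 * (1 + log R) := by
  have hu' := mem_range.mp hu
  let f : ℕ → ℝ := fun δ => 1 / ((δ : ℝ) + 1) + 1 / (R - (δ : ℝ))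
  have hf : ∀ δ ∈ range R, 0 ≤ f δ := fun δ hδ => by
    have : (δ : ℝ) < R := by exact_mod_cast mem_range.mp hδ
    exact add_nonneg (by positivity) (one_div_nonneg.mpr (by linarith))
  have hm : ∀ v ∈ range R, ((u : ℤ) - v).natAbs ∈ range R := fun v hv => by
    have := mem_range.mp hv
    exact mem_range.mpr (by omega)
  have e : ∀ v : ℕ, 1 / (|(u : ℝ) - v| + 1) + 1 / (R - |(u : ℝ) - v|) =
      f ((u : ℤ) - v).natAbs := fun v => by
    simp only [f, Nat.cast_natAbs]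
    push_cast
    rfl
  simp only [e]
  rw [← sum_fiberwise_of_maps_to hm]
  have h1 : ∑ δ ∈ range R, f δ ≤ 2 * (1 + log R) := by
    simp only [f]
    rw [sum_add_distrib, ← sum_range_reflect (fun δ => 1 / (R - (δ : ℝ)))]
    have : ∑ j ∈ range R, 1 / ((R : ℝ) - (R - 1 - j : ℕ)) = ∑ i ∈ range R, 1 / ((i : ℝ) + 1) := by
      refine sum_congr rfl fun j hj => ?_
      have := mem_range.mp hj
      have e' : R = R - 1 - j + (j + 1) := by omega
      have e'' : (R : ℝ) = (R - 1 - j : ℕ) + (j + 1) := by exact_mod_cast e'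
      congr 1
      linarith
    rw [this]
    linarith [sum_inv_le R]
  refine le_trans (sum_le_sum fun δ hδ => ?_) ((mul_sum _ f 2).symm.trans_le (by linarith))
  rw [sum_congr rfl fun v hv => congrArg f (mem_filter.mp hv).2, sum_const, nsmul_eq_mul]
  refine mul_le_mul_of_nonneg_right ?_ (hf δ hδ)
  have : ((range R).filter fun v : ℕ => ((u : ℤ) - v).natAbs = δ) ⊆ {u - δ, u + δ} := by
    intro v hv
    have := (mem_filter.mp hv).2
    simp only [mem_insert, mem_singleton]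
    omega
  exact_mod_cast (card_le_card this).trans card_le_two

open Classical in
theorem mean_le {ι : Type*} (I : Finset ι) (β : ι → ℂ) (hβ : ∀ n, ‖β n‖ ≤ 1) (θ : ι → ℝ) {R : ℕ}
    (hR : 1 ≤ R) :
    ∑ j ∈ range R, ‖∑ n ∈ I, β n * ee (j * θ n)‖ ^ 2 ≤ 12 * R * (1 + log R) *
      ((I ×ˢ I).filter fun p => ∃ k : ℤ, |θ p.1 - θ p.2 - k| ≤ 1 / R).card := by
  have hR0 : (0 : ℝ) < R := by exact_mod_cast hR
  let r : ι → ℕ := fun n => ⌊R * Int.fract (θ n)⌋₊
  have hr0 : ∀ n, 0 ≤ R * Int.fract (θ n) := fun n => mul_nonneg hR0.le (Int.fract_nonneg _)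
  have hr : ∀ n, r n < R := fun n => (Nat.floor_lt (hr0 n)).mpr
    (mul_lt_of_lt_one_right hR0 (Int.fract_lt_one _))
  have hd : ∀ n m, |R * (Int.fract (θ n) - Int.fract (θ m)) - (r n - r m)| ≤ 1 := fun n m => by
    have a1 := Nat.floor_le (hr0 n)
    have a2 := Nat.floor_le (hr0 m)
    have a3 := Nat.lt_floor_add_one (R * Int.fract (θ n))
    have a4 := Nat.lt_floor_add_one (R * Int.fract (θ m))
    exact abs_le.mpr ⟨by simp only [r]; linarith, by simp only [r]; linarith⟩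
  have h1 : ∀ n m, ‖∑ j ∈ range R, ee (j * (θ n - θ m))‖ ≤
      3 * R * (1 / (|(r n : ℝ) - r m| + 1) + 1 / (R - |(r n : ℝ) - r m|)) := by
    intro n m
    have e : ∀ j : ℕ, ee (j * (θ n - θ m)) = ee (j * (Int.fract (θ n) - Int.fract (θ m))) := by
      intro j
      rw [← mul_one (ee (j * (Int.fract (θ n) - Int.fract (θ m)))),
        ← ee_int (j * (⌊θ n⌋ - ⌊θ m⌋)), ← ee_add]
      congr 1
      simp only [Int.fract]
      push_cast
      ring
    simp only [e]
    have a1 : (r n : ℝ) + 1 ≤ R := by exact_mod_cast hr n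
    have a2 : (r m : ℝ) + 1 ≤ R := by exact_mod_cast hr m
    have a3 : (0 : ℝ) ≤ r n := Nat.cast_nonneg _
    have a4 : (0 : ℝ) ≤ r m := Nat.cast_nonneg _
    refine geom_kernel (abs_le.mpr ⟨?_, ?_⟩) (abs_nonneg _) ?_ ?_
    · linarith [Int.fract_nonneg (θ n), Int.fract_lt_one (θ m)]
    · linarith [Int.fract_nonneg (θ m), Int.fract_lt_one (θ n)]
    · exact le_sub_iff_add_le.mp (abs_le.mpr ⟨by linarith, by linarith⟩)
    · rw [← abs_of_pos hR0, ← abs_mul]
      exact (abs_abs_sub_abs_le_abs_sub _ _).trans (hd n m)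
  have h2 : ((∑ j ∈ range R, ‖∑ n ∈ I, β n * ee (j * θ n)‖ ^ 2 : ℝ) : ℂ) =
      ∑ n ∈ I, ∑ m ∈ I, β n * (starRingEnd ℂ) (β m) * ∑ j ∈ range R, ee (j * (θ n - θ m)) := by
    push_cast
    simp only [← Complex.mul_conj', map_sum, map_mul, conj_ee, sum_mul_sum]
    rw [sum_comm]
    refine sum_congr rfl fun n _ => ?_
    rw [sum_comm]
    refine sum_congr rfl fun m _ => ?_
    rw [mul_sum]
    refine sum_congr rfl fun j _ => ?_
    rw [mul_sub, sub_eq_add_neg, ee_add]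
    ring
  have h3 : ∑ j ∈ range R, ‖∑ n ∈ I, β n * ee (j * θ n)‖ ^ 2 ≤ ∑ n ∈ I, ∑ m ∈ I,
      3 * R * (1 / (|(r n : ℝ) - r m| + 1) + 1 / (R - |(r n : ℝ) - r m|)) := by
    refine (le_abs_self _).trans ?_
    rw [← Real.norm_eq_abs, ← Complex.norm_real, h2]
    refine (norm_sum_le _ _).trans (sum_le_sum fun n _ => (norm_sum_le _ _).trans
      (sum_le_sum fun m _ => ?_))
    rw [norm_mul, norm_mul, Complex.norm_conj]
    exact (mul_le_of_le_one_left (norm_nonneg _) (mul_le_one₀ (hβ n) (norm_nonneg _) (hβ m))).trans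
      (h1 n m)
  have h4 := sum_pairs_le I r (fun n _ => mem_range.mpr (hr n))
    (fun u v => 3 * R * (1 / (|(u : ℝ) - v| + 1) + 1 / (R - |(u : ℝ) - v|)))
    (fun u hu v hv => by
      have a1 : (u : ℝ) < R := by exact_mod_cast mem_range.mp hu
      have a2 : (v : ℝ) < R := by exact_mod_cast mem_range.mp hv
      have a3 : (0 : ℝ) ≤ u := Nat.cast_nonneg _
      have a4 : (0 : ℝ) ≤ v := Nat.cast_nonneg _
      have : |(u : ℝ) - v| ≤ R := abs_le.mpr ⟨by linarith, by linarith⟩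
      exact mul_nonneg (by positivity)
        (add_nonneg (by positivity) (one_div_nonneg.mpr (by linarith))))
    (fun u v => by rw [abs_sub_comm]) (K := 12 * R * (1 + log R)) fun u hu => by
      rw [← mul_sum]
      linarith [mul_le_mul_of_nonneg_left (row_le hu) (by positivity : (0 : ℝ) ≤ 3 * R)]
  refine h3.trans (h4.trans (mul_le_mul_of_nonneg_left ?_ ?_))
  · refine Nat.cast_le.mpr (card_le_card fun p hp => ?_)
    obtain ⟨a1, a2⟩ := mem_filter.mp hp
    refine mem_filter.mpr ⟨a1, ⌊θ p.1⌋ - ⌊θ p.2⌋, ?_⟩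
    have := hd p.1 p.2
    rw [a2, sub_self, sub_zero, abs_mul, abs_of_pos hR0, ← le_div_iff₀' hR0] at this
    refine (congrArg abs ?_).trans_le this
    simp only [Int.fract]
    push_cast
    ring
  · have := log_natCast_nonneg R
    positivity

end Pool.Agent.Lib.MP_ecd12e_nt
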