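import Mathlib

/-! Spacing of logarithms of fractions, and the divisor bound. -/

namespace Pool.Agent.Lib.MP_ecd12e_nt

open Finset

lemma log_gap {u v : ℕ} {H : ℝ} (hv : 1 ≤ v) (h : v < u) (hu : (u : ℝ) ≤ H) :
    1 ≤ H * (Real.log u - Real.log v) := by
  have hv' : (0 : ℝ) < v := by exact_mod_cast hv
  have h' : (v : ℝ) + 1 ≤ u := by exact_mod_cast h
  have hu' : (0 : ℝ) < u := by linarith
  have h1 := Real.one_sub_inv_le_log_of_pos (div_pos hu' hv')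
  rw [Real.log_div hu'.ne' hv'.ne', inv_div] at h1
  have h2 : 1 ≤ (u : ℝ) * (1 - v / u) := by
    rw [mul_sub, mul_div_cancel₀ _ hu'.ne']
    linarith
  have h3 : 0 ≤ 1 - (v : ℝ) / u := by
    rw [sub_nonneg, div_le_one hu']
    linarith
  calc 1 ≤ (u : ℝ) * (1 - v / u) := h2
    _ ≤ _ := mul_le_mul hu h1 h3 (hu'.le.trans hu)

lemma eq_of_cross {a b a' b' : ℕ} (h : Nat.Coprime a b) (h' : Nat.Coprime a' b')
    (e : a * b' = a' * b) : a = a' ∧ b = b' := by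
  have h1 : a ∣ a' := h.dvd_of_dvd_mul_right (e ▸ Dvd.intro _ rfl)
  have h2 : a' ∣ a := h'.dvd_of_dvd_mul_right (e ▸ Dvd.intro _ rfl)
  have h3 : b ∣ b' := h.symm.dvd_of_dvd_mul_left (e ▸ Dvd.intro_left _ rfl)
  have h4 : b' ∣ b := h'.symm.dvd_of_dvd_mul_left (e ▸ Dvd.intro_left _ rfl)
  exact ⟨Nat.dvd_antisymm h1 h2, Nat.dvd_antisymm h3 h4⟩

/-- A reduced fraction with numerator and denominator in `[1, H]`. -/
structure Red (H : ℝ) (p : ℕ × ℕ) : Prop where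
  cop : Nat.Coprime p.1 p.2
  pos1 : 1 ≤ p.1
  pos2 : 1 ≤ p.2
  le1 : (p.1 : ℝ) ≤ H
  le2 : (p.2 : ℝ) ≤ H

/-- The logarithm of the fraction. -/
noncomputable def lg (p : ℕ × ℕ) : ℝ := Real.log p.1 - Real.log p.2

lemma lg_gap {H : ℝ} {p q : ℕ × ℕ} (hp : Red H p) (hq : Red H q) (h : p ≠ q) :
    1 ≤ H ^ 2 * |lg p - lg q| := by
  have key : ∀ p q : ℕ × ℕ, Red H p → Red H q → q.1 * p.2 < p.1 * q.2 →
      1 ≤ H ^ 2 * (lg p - lg q) := by
    intro p q hp hq h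
    have h1 := log_gap (H := H ^ 2) (Nat.mul_pos hq.pos1 hp.pos2) h (by
      push_cast
      rw [sq]
      exact mul_le_mul hp.le1 hq.le2 (Nat.cast_nonneg _) ((Nat.cast_nonneg _).trans hp.le1))
    have a1 : (p.1 : ℝ) ≠ 0 := Nat.cast_ne_zero.mpr (by have := hp.pos1; omega)
    have a2 : (p.2 : ℝ) ≠ 0 := Nat.cast_ne_zero.mpr (by have := hp.pos2; omega)
    have a3 : (q.1 : ℝ) ≠ 0 := Nat.cast_ne_zero.mpr (by have := hq.pos1; omega)
    have a4 : (q.2 : ℝ) ≠ 0 := Nat.cast_ne_zero.mpr (by have := hq.pos2; omega)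
    push_cast at h1
    rw [Real.log_mul a1 a4, Real.log_mul a3 a2] at h1
    unfold lg
    linarith
  rcases lt_trichotomy (q.1 * p.2) (p.1 * q.2) with h1 | h1 | h1
  · exact (key p q hp hq h1).trans (mul_le_mul_of_nonneg_left (le_abs_self _) (sq_nonneg _))
  · obtain ⟨e1, e2⟩ := eq_of_cross hp.cop hq.cop h1.symm
    exact absurd (Prod.ext e1 e2) h
  · refine (key q p hq hp h1).trans (mul_le_mul_of_nonneg_left ?_ (sq_nonneg _))
    rw [abs_sub_comm]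
    exact le_abs_self _

lemma card_window {H η y : ℝ} (hη : 0 ≤ η) {S : Finset (ℕ × ℕ)} (hS : ∀ p ∈ S, Red H p)
    (hy : ∀ p ∈ S, |lg p - y| ≤ η) : (S.card : ℝ) ≤ 1 + 2 * η * H ^ 2 := by
  have h0 : 0 ≤ 2 * η * H ^ 2 := by positivity
  have h1 : S.card ≤ (range (⌊2 * η * H ^ 2⌋₊ + 1)).card := by
    refine card_le_card_of_injOn (fun p => ⌊H ^ 2 * (lg p - y + η)⌋₊) (fun p hp => ?_)
      fun p hp q hq e => ?_
    · rw [coe_range, Set.mem_Iio, Nat.lt_succ_iff]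
      refine Nat.floor_le_floor ?_
      have := (abs_le.mp (hy p hp)).2
      nlinarith [sq_nonneg H]
    · by_contra hne
      have h2 := lg_gap (hS p hp) (hS q hq) hne
      have a1 : 0 ≤ H ^ 2 * (lg p - y + η) :=
        mul_nonneg (sq_nonneg _) (by linarith [(abs_le.mp (hy p hp)).1])
      have a2 : 0 ≤ H ^ 2 * (lg q - y + η) :=
        mul_nonneg (sq_nonneg _) (by linarith [(abs_le.mp (hy q hq)).1])
      have b1 := Nat.floor_le a1
      have b2 := Nat.floor_le a2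
      have c1 := Nat.lt_floor_add_one (H ^ 2 * (lg p - y + η))
      have c2 := Nat.lt_floor_add_one (H ^ 2 * (lg q - y + η))
      simp only at e
      rw [e] at b1 c1
      rw [← abs_of_nonneg (sq_nonneg H), ← abs_mul] at h2
      have : |H ^ 2 * (lg p - lg q)| < 1 := abs_lt.mpr ⟨by linarith, by linarith⟩
      linarith
  rw [card_range] at h1
  have h2 : (S.card : ℝ) ≤ ⌊2 * η * H ^ 2⌋₊ + 1 := by exact_mod_cast h1
  linarith [Nat.floor_le h0]

lemma card_le_mul_real {α β : Type*} {S : Finset α} {T : Finset β} (f : α → β)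
    (hf : ∀ a ∈ S, f a ∈ T) {M : ℝ}
    (h : ∀ b ∈ T, ∀ S' : Finset α, S' ⊆ S → (∀ a ∈ S', f a = b) → (S'.card : ℝ) ≤ M) :
    (S.card : ℝ) ≤ T.card * M := by
  classical
  rw [card_eq_sum_card_fiberwise (f := f) (t := T) hf]
  push_cast
  refine (sum_le_card_nsmul _ _ M fun b hb => ?_).trans_eq (nsmul_eq_mul _ _)
  exact h b hb _ (filter_subset _ _) fun a ha => (mem_filter.mp ha).2

lemma card_cover {H η c : ℝ} (hη : 0 ≤ η) {S : Finset (ℕ × ℕ)} (hS : ∀ p ∈ S, Red H p)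
    {T : Finset ℤ} (hy : ∀ p ∈ S, ∃ k ∈ T, |lg p - k * c| ≤ η) :
    (S.card : ℝ) ≤ T.card * (1 + 2 * η * H ^ 2) := by
  choose! k hk using hy
  refine card_le_mul_real k (fun p hp => (hk p hp).1) fun b _ S' h1 h2 => ?_
  exact card_window hη (y := b * c) (fun p hp => hS p (h1 hp))
    fun p hp => h2 p hp ▸ (hk p (h1 hp)).2

lemma card_cover' {H η c K : ℝ} (hη : 0 ≤ η) (hK : 0 ≤ K) {S : Finset (ℕ × ℕ)}
    (hS : ∀ p ∈ S, Red H p) (hy : ∀ p ∈ S, ∃ k : ℤ, |(k : ℝ)| ≤ K ∧ |lg p - k * c| ≤ η) :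
    (S.card : ℝ) ≤ (2 * K + 1) * (1 + 2 * η * H ^ 2) := by
  refine (card_cover hη hS (T := Icc (-(⌊K⌋₊ : ℤ)) ⌊K⌋₊) (c := c) fun p hp => ?_).trans ?_
  · obtain ⟨k, h1, h2⟩ := hy p hp
    refine ⟨k, mem_Icc.mpr (abs_le.mp ?_), h2⟩
    have : (k.natAbs : ℝ) ≤ K := by rwa [Nat.cast_natAbs, Int.cast_abs]
    rw [Int.abs_eq_natAbs]
    exact_mod_cast Nat.le_floor this
  · refine mul_le_mul_of_nonneg_right ?_ (by positivity)
    have : (Icc (-(⌊K⌋₊ : ℤ)) ⌊K⌋₊).card = 2 * ⌊K⌋₊ + 1 := by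
      rw [Int.card_Icc]
      omega
    rw [this]
    push_cast
    linarith [Nat.floor_le hK]

lemma succ_pow_le_aux {k : ℕ} (hk : 0 < k) (v : ℕ) : (v + 1) ^ k ≤ 2 ^ v * k ^ k := by
  have h1 : v + 1 ≤ 2 ^ (v / k) * k := by
    have h2 : v / k + 1 ≤ 2 ^ (v / k) := Nat.lt_two_pow_self
    have h3 : v < (v / k + 1) * k := by
      rw [mul_comm]; exact Nat.lt_mul_div_succ v hk
    calc v + 1 ≤ (v / k + 1) * k := h3
      _ ≤ _ := Nat.mul_le_mul_right _ h2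
  calc (v + 1) ^ k ≤ (2 ^ (v / k) * k) ^ k := Nat.pow_le_pow_left h1 _
    _ = 2 ^ (v / k * k) * k ^ k := by rw [mul_pow, ← pow_mul]
    _ ≤ _ := Nat.mul_le_mul_right _ (Nat.pow_le_pow_right (by norm_num) (Nat.div_mul_le_self _ _))

lemma card_divisors_pow_le {k n : ℕ} (hk : 0 < k) (hn : n ≠ 0) :
    n.divisors.card ^ k ≤ n * (k ^ k) ^ 2 ^ k := by
  have h1 : ∀ p ∈ n.primeFactors, (n.factorization p + 1) ^ k ≤
      p ^ n.factorization p * (if p < 2 ^ k then k ^ k else 1) := by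
    intro p hp
    have hp2 := (Nat.prime_of_mem_primeFactors hp).two_le
    split_ifs with h
    · exact (succ_pow_le_aux hk _).trans (Nat.mul_le_mul_right _ (Nat.pow_le_pow_left hp2 _))
    · rw [mul_one]
      calc (n.factorization p + 1) ^ k ≤ (2 ^ n.factorization p) ^ k :=
            Nat.pow_le_pow_left Nat.lt_two_pow_self _
        _ = (2 ^ k) ^ n.factorization p := by rw [← pow_mul, ← pow_mul, mul_comm]
        _ ≤ _ := Nat.pow_le_pow_left (not_lt.1 h) _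
  rw [Nat.card_divisors hn, ← prod_pow]
  refine (prod_le_prod' h1).trans ?_
  rw [prod_mul_distrib, ← prod_filter, prod_const]
  refine Nat.mul_le_mul (le_of_eq ?_) (Nat.pow_le_pow_right (by positivity) ?_)
  · conv_rhs => rw [← Nat.prod_factorization_pow_eq_self hn]
    rfl
  · calc _ ≤ (range (2 ^ k)).card := card_le_card fun p hp => mem_range.2 (mem_filter.1 hp).2
      _ = _ := card_range _

/-- All numbers in `[1, H]` have at most `B` divisors. -/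
def TauLe (H B : ℝ) : Prop := ∀ n : ℕ, n ≠ 0 → (n : ℝ) ≤ H → (n.divisors.card : ℝ) ≤ B

lemma TauLe.mono {H H' B : ℝ} (h : TauLe H B) (hH : H' ≤ H) : TauLe H' B :=
  fun n h1 h2 => h n h1 (h2.trans hH)

/-- The divisor bound: for `Y ≥ 1`, numbers up to `A Y ^ k` have at most `C Y` divisors. -/
lemma exists_tauLe {k : ℕ} (hk : 0 < k) {A : ℝ} (hA : 1 ≤ A) :
    ∃ C : ℝ, 1 ≤ C ∧ ∀ Y : ℝ, 1 ≤ Y → TauLe (A * Y ^ k) (C * Y) := by
  have h1 : (1 : ℝ) ≤ ((k : ℝ) ^ k) ^ 2 ^ k :=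
    one_le_pow₀ (one_le_pow₀ (by exact_mod_cast hk))
  refine ⟨A * ((k : ℝ) ^ k) ^ 2 ^ k, one_le_mul_of_one_le_of_one_le hA h1, fun Y hY n hn hle => ?_⟩
  have h2 : (n.divisors.card : ℝ) ^ k ≤ n * ((k : ℝ) ^ k) ^ 2 ^ k := by
    exact_mod_cast card_divisors_pow_le hk hn
  refine le_of_pow_le_pow_left₀ hk.ne' (by positivity) (h2.trans ?_)
  calc _ ≤ A * Y ^ k * ((k : ℝ) ^ k) ^ 2 ^ k := by gcongr
    _ = A * ((k : ℝ) ^ k) ^ 2 ^ k * Y ^ k := by ring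
    _ ≤ (A * ((k : ℝ) ^ k) ^ 2 ^ k) ^ k * Y ^ k := by
        gcongr
        exact le_self_pow₀ (one_le_mul_of_one_le_of_one_le hA h1) hk.ne'
    _ = _ := (mul_pow _ _ _).symm

end Pool.Agent.Lib.MP_ecd12e_nt
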