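import Pool.Agent.Lib.MP_ecd12e_nt.Curve

/-! A short interval contains few good points. -/

namespace Pool.Agent.Lib.MP_ecd12e_nt

open Finset

/-- Either two quadratics are proportional, or after removing a common root the greatest common
divisor of their values divides a fixed nonzero integer. -/
lemma res (α0 α1 α2 β0 β1 β2 : ℤ) {H : ℝ} (hH : 1 ≤ H)
    (h : ∀ γ ∈ [α0, α1, α2, β0, β1, β2], |(γ : ℝ)| ≤ H) :
    (α0 * β1 = α1 * β0 ∧ α0 * β2 = α2 * β0 ∧ α1 * β2 = α2 * β1) ∨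
      ∃ a0 a1 a2 b0 b1 b2 ρ t0 : ℤ, ρ ≠ 0 ∧ |(ρ : ℝ)| ≤ 8 * H ^ 6 ∧
        (∀ t a b : ℤ, t ≠ t0 → (α0 + α1 * t + α2 * t ^ 2) * a = (β0 + β1 * t + β2 * t ^ 2) * b →
          (a0 + a1 * t + a2 * t ^ 2) * a = (b0 + b1 * t + b2 * t ^ 2) * b) ∧
        ∀ t g : ℤ, g ∣ a0 + a1 * t + a2 * t ^ 2 → g ∣ b0 + b1 * t + b2 * t ^ 2 → g ∣ ρ := by
  have minor : ∀ x ∈ [α0, α1, α2, β0, β1, β2], ∀ y ∈ [α0, α1, α2, β0, β1, β2],
      ∀ z ∈ [α0, α1, α2, β0, β1, β2], ∀ u ∈ [α0, α1, α2, β0, β1, β2],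
      |((x * y - z * u : ℤ) : ℝ)| ≤ 2 * H ^ 2 := by
    intro x hx y hy z hz u hu
    push_cast
    refine (abs_sub _ _).trans ?_
    rw [abs_mul, abs_mul]
    have h1 := mul_le_mul (h x hx) (h y hy) (abs_nonneg _) (by linarith)
    have h2 := mul_le_mul (h z hz) (h u hu) (abs_nonneg _) (by linarith)
    linarith
  have hp := minor α0 (by simp) β1 (by simp) α1 (by simp) β0 (by simp)
  have hr := minor α0 (by simp) β2 (by simp) α2 (by simp) β0 (by simp)
  have hs := minor α1 (by simp) β2 (by simp) α2 (by simp) β1 (by simp)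
  obtain ⟨p, ep⟩ : ∃ p, p = α0 * β1 - α1 * β0 := ⟨_, rfl⟩
  obtain ⟨r, er⟩ : ∃ r, r = α0 * β2 - α2 * β0 := ⟨_, rfl⟩
  obtain ⟨s, es⟩ : ∃ s, s = α1 * β2 - α2 * β1 := ⟨_, rfl⟩
  rw [← ep] at hp
  rw [← er] at hr
  rw [← es] at hs
  have d1 : ∀ t g : ℤ, g ∣ α0 + α1 * t + α2 * t ^ 2 → g ∣ β0 + β1 * t + β2 * t ^ 2 →
      g ∣ s * t + r ∧ g ∣ p - s * t ^ 2 := by
    intro t g h1 h2
    constructor
    · refine (dvd_sub (h1.mul_left β2) (h2.mul_left α2)).trans (dvd_of_eq ?_)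
      rw [es, er]
      ring
    · refine (dvd_sub (h1.mul_left β1) (h2.mul_left α1)).trans (dvd_of_eq ?_)
      rw [es, ep]
      ring
  have H2 : H ^ 2 ≤ H ^ 6 := pow_le_pow_right₀ hH (by norm_num)
  have H4 : H ^ 4 ≤ H ^ 6 := pow_le_pow_right₀ hH (by norm_num)
  have H0 : 0 ≤ H ^ 6 := by positivity
  by_cases h1 : r ^ 2 - p * s = 0
  · by_cases h2 : s = 0
    · have h3 : r = 0 := by
        rw [h2, mul_zero, sub_zero] at h1
        exact pow_eq_zero_iff two_ne_zero |>.mp h1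
      by_cases h4 : p = 0
      · exact Or.inl ⟨by linarith, by linarith, by linarith⟩
      · refine Or.inr ⟨α0, α1, α2, β0, β1, β2, p, 0, h4, by linarith, fun t a b _ e => e,
          fun t g g1 g2 => ?_⟩
        simpa [h2] using (d1 t g g1 g2).2
    · obtain ⟨t0, ht0⟩ : ∃ t0 : ℤ, ∀ t, t ≠ t0 → s * t + r ≠ 0 := by
        by_cases h5 : ∃ t, s * t + r = 0
        · obtain ⟨t0, e⟩ := h5
          exact ⟨t0, fun t ht e' => ht (mul_left_cancel₀ h2 (by linarith))⟩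
        · exact ⟨0, fun t _ e => h5 ⟨t, e⟩⟩
      refine Or.inr ⟨s * α1 - r * α2, s * α2, 0, s * β1 - r * β2, s * β2, 0, s ^ 3, t0,
        pow_ne_zero _ h2, ?_, fun t a b ht e => ?_, fun t g g1 g2 => ?_⟩
      · push_cast
        rw [abs_pow]
        calc _ ≤ (2 * H ^ 2) ^ 3 := pow_le_pow_left₀ (abs_nonneg _) hs 3
          _ = _ := by ring
      · refine mul_left_cancel₀ (ht0 t ht) ?_
        have k1 : s * α0 - r * α1 + p * α2 = 0 := by rw [es, er, ep]; ring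
        have k2 : s * β0 - r * β1 + p * β2 = 0 := by rw [es, er, ep]; ring
        linear_combination s ^ 2 * e - (s * a) * k1 + (s * b) * k2 - (α2 * a - β2 * b) * h1
      · refine (dvd_sub (g1.mul_left (s * β2)) (g2.mul_left (s * α2))).trans (dvd_of_eq ?_)
        linear_combination (-s ^ 2) * es
  · refine Or.inr ⟨α0, α1, α2, β0, β1, β2, r ^ 2 - p * s, 0, h1, ?_, fun t a b _ e => e,
      fun t g g1 g2 => ?_⟩
    · push_cast
      refine (abs_sub _ _).trans ?_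
      rw [abs_mul, abs_pow]
      have a1 := pow_le_pow_left₀ (abs_nonneg _) hr 2
      have a2 := mul_le_mul hp hs (abs_nonneg _) (by positivity)
      linarith
    · obtain ⟨k1, k2⟩ := d1 t g g1 g2
      refine (dvd_sub (k1.mul_left (r - s * t)) (k2.mul_left s)).trans (dvd_of_eq ?_)
      ring

lemma card_roots_le {α0 α1 α2 : ℤ} (h : ¬(α0 = 0 ∧ α1 = 0 ∧ α2 = 0)) {T : Finset ℤ}
    (hT : ∀ t ∈ T, α0 + α1 * t + α2 * t ^ 2 = 0) : T.card ≤ 2 := by
  by_contra hc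
  obtain ⟨x, y, z, hx, hy, hz, n1, n2, n3⟩ := two_lt_card_iff.mp (not_le.mp hc)
  have e1 := hT x hx
  have e2 := hT y hy
  have e3 := hT z hz
  have f1 : α1 + α2 * (x + y) = 0 :=
    mul_left_cancel₀ (sub_ne_zero.mpr n1) (by linear_combination e1 - e2)
  have f2 : α1 + α2 * (x + z) = 0 :=
    mul_left_cancel₀ (sub_ne_zero.mpr n2) (by linear_combination e1 - e3)
  have f3 : α2 = 0 := mul_left_cancel₀ (sub_ne_zero.mpr n3) (by linear_combination f1 - f2)
  have f4 : α1 = 0 := by simpa [f3] using f1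
  exact h ⟨by simpa [f3, f4] using e1, f4, f3⟩

lemma card_on_curve {w : ℕ} {Q η c L κ x H B : ℝ} (h : Small w Q η c L κ) (hH : 1 ≤ H)
    (hB : TauLe (8 * H ^ 6) B) {α0 α1 α2 β0 β1 β2 : ℤ} (hne : ¬(α0 = 0 ∧ α1 = 0 ∧ α2 = 0))
    (hle : ∀ γ ∈ [α0, α1, α2, β0, β1, β2], |(γ : ℝ)| ≤ H) {T : Finset ℤ} (a b : ℤ → ℤ)
    (hT : ∀ t ∈ T, 0 ≤ t ∧ (t : ℝ) ≤ L) (hN : ∀ t ∈ T, Nr Q η (x + c * t) (a t) (b t))
    (hcop : ∀ t ∈ T, IsCoprime (a t) (b t))
    (hc : ∀ t ∈ T, (α0 + α1 * t + α2 * t ^ 2) * a t = (β0 + β1 * t + β2 * t ^ 2) * b t) :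
    (T.card : ℝ) ≤ 3 + 12 * B * (w + 1) := by
  classical
  have hB1 : 1 ≤ B := by
    simpa using hB 1 one_ne_zero (by
      have := one_le_pow₀ (n := 6) hH
      push_cast
      linarith)
  have hQ : 0 < Q := by linarith [h.hQ]
  rcases res α0 α1 α2 β0 β1 β2 hH hle with ⟨e1, e2, e3⟩ | ⟨a0, a1, a2, b0, b1, b2, ρ, t0, hρ, hρle,
    hc', hdvd⟩
  · have h1 : (T.filter fun t => α0 + α1 * t + α2 * t ^ 2 = 0).card ≤ 2 :=
      card_roots_le hne fun t ht => (mem_filter.mp ht).2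
    have h2 : (T.filter fun t => ¬α0 + α1 * t + α2 * t ^ 2 = 0).card ≤ 1 := by
      refine card_le_one.mpr fun s hs t ht => ?_
      obtain ⟨hs, ns⟩ := mem_filter.mp hs
      obtain ⟨ht, nt⟩ := mem_filter.mp ht
      refine eq_of_same h (hN s hs) (hN t ht) ?_
      have : a s * b t = a t * b s := by
        refine mul_left_cancel₀ (mul_ne_zero ns nt) ?_
        linear_combination ((α0 + α1 * t + α2 * t ^ 2) * b t) * hc s hs -
          ((α0 + α1 * s + α2 * s ^ 2) * b s) * hc t ht +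
          b s * b t * ((s - t) * e1 + (s ^ 2 - t ^ 2) * e2 + (s ^ 2 * t - s * t ^ 2) * e3)
      exact_mod_cast this
    have h3 := card_filter_add_card_filter_not (s := T) fun t => α0 + α1 * t + α2 * t ^ 2 = 0
    have h4 : (T.card : ℝ) ≤ 3 := by exact_mod_cast (by omega : T.card ≤ 3)
    have : 0 ≤ 12 * B * (w + 1) := by positivity
    linarith
  · have hg : ∀ t ∈ T.erase t0, ∃ g : ℤ, g ∣ ρ ∧ a0 + a1 * t + a2 * t ^ 2 = g * b t ∧
        b0 + b1 * t + b2 * t ^ 2 = g * a t := by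
      intro t ht
      have ht' := mem_of_mem_erase ht
      have e := hc' t _ _ (ne_of_mem_erase ht) (hc t ht')
      have hb0 : b t ≠ 0 := by
        have := hQ.trans_le (hN t ht').lo2
        exact_mod_cast this.ne'
      obtain ⟨g, hg⟩ : b t ∣ a0 + a1 * t + a2 * t ^ 2 :=
        (hcop t ht').symm.dvd_of_dvd_mul_right (Dvd.intro_left _ e.symm)
      have e2 : b0 + b1 * t + b2 * t ^ 2 = g * a t :=
        mul_right_cancel₀ hb0 (by rw [← e, hg]; ring)
      exact ⟨g, hdvd t g (Dvd.intro_left _ hg.symm) (Dvd.intro _ e2.symm), by rw [hg, mul_comm],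
        e2⟩
    choose! g hg using hg
    have hn : ρ.natAbs ≠ 0 := Int.natAbs_ne_zero.mpr hρ
    have h1 := card_le_mul_real (S := T.erase t0)
      (T := ρ.natAbs.divisors.image (fun n : ℕ => (n : ℤ)) ∪
        ρ.natAbs.divisors.image fun n : ℕ => -(n : ℤ)) g (M := 6 * (w + 1))
      (fun t ht => by
        have hm : (g t).natAbs ∈ ρ.natAbs.divisors :=
          Nat.mem_divisors.mpr ⟨Int.natAbs_dvd_natAbs.mpr (hg t ht).1, hn⟩
        rcases Int.natAbs_eq (g t) with e | e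
        · exact mem_union_left _ (mem_image.mpr ⟨_, hm, e.symm⟩)
        · exact mem_union_right _ (mem_image.mpr ⟨_, hm, e.symm⟩))
      (fun γ _ S hS hγ => by
        rcases S.eq_empty_or_nonempty with rfl | ⟨t1, ht1⟩
        · simp only [card_empty, Nat.cast_zero]
          positivity
        have hγ0 : (γ : ℝ) ≠ 0 := by
          have := ne_zero_of_dvd_ne_zero hρ (hg t1 (hS ht1)).1
          rw [hγ t1 ht1] at this
          exact_mod_cast this
        have := card_curve (x := x) (p0 := a0 / γ) (p1 := a1 / γ) (p2 := a2 / γ) (q0 := b0 / γ)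
          (q1 := b1 / γ) (q2 := b2 / γ) h a b (fun t ht => hT t (mem_of_mem_erase (hS ht)))
          (fun t ht => hN t (mem_of_mem_erase (hS ht)))
          (fun t ht => by
            have e : (b0 : ℝ) + b1 * t + b2 * t ^ 2 = γ * a t := by
              exact_mod_cast hγ t ht ▸ (hg t (hS ht)).2.2
            field_simp
            linarith)
          (fun t ht => by
            have e : (a0 : ℝ) + a1 * t + a2 * t ^ 2 = γ * b t := by
              exact_mod_cast hγ t ht ▸ (hg t (hS ht)).2.1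
            field_simp
            linarith)
        exact_mod_cast this)
    have h2 : (ρ.natAbs.divisors.image (fun n : ℕ => (n : ℤ)) ∪
        ρ.natAbs.divisors.image fun n : ℕ => -(n : ℤ)).card ≤ 2 * ρ.natAbs.divisors.card :=
      (card_union_le _ _).trans ((add_le_add card_image_le card_image_le).trans_eq (two_mul _).symm)
    have h3 := hB _ hn (by rwa [Nat.cast_natAbs, Int.cast_abs])
    have h4 : ((ρ.natAbs.divisors.image (fun n : ℕ => (n : ℤ)) ∪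
        ρ.natAbs.divisors.image fun n : ℕ => -(n : ℤ)).card : ℝ) ≤ 2 * B :=
      le_trans (by exact_mod_cast h2) (mul_le_mul_of_nonneg_left h3 (by norm_num))
    have h5 : (T.card : ℝ) ≤ (T.erase t0).card + 1 := by
      exact_mod_cast (by have := pred_card_le_card_erase (s := T) (a := t0); omega)
    have h6 := mul_le_mul_of_nonneg_right h4 (by positivity : (0 : ℝ) ≤ 6 * (w + 1))
    linarith

lemma card_interval {w : ℕ} {Q η c L κ x B Y Z0 Z1 Z2 : ℝ} (h : Small w Q η c L κ) (hc : 0 < c)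
    (hL : 1 ≤ L) (h0 : 0 < Z0) (h01 : Z0 ≤ Z1) (h12 : Z1 ≤ Z2) (y0 : Z0 ≤ Y)
    (y1 : Z1 * (c * L) ≤ Y) (y2 : Z2 * (c * L) ^ 2 ≤ Y) (hY : 100 * Q * η * Y ≤ 1)
    (ha : 100 * Q * Z2 * (c * L) ^ 4 ≤ 1)
    (hb : 1 ≤ 100 * Q * Z2 * (c * L) ^ 3) (hv : 2 * 10 ^ 7 * Q ^ 4 * L ^ 6 ≤ Z0 * Z1)
    (hB : TauLe (8 * (10 * Z2 + 1) ^ 6) B) {T : Finset ℤ} (hT : ∀ t ∈ T, 0 ≤ t ∧ (t : ℝ) ≤ L)
    (hN : ∀ t ∈ T, ∃ p : ℕ × ℕ, Nat.Coprime p.1 p.2 ∧ Nr Q η (x + c * t) p.1 p.2) :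
    (T.card : ℝ) ≤ 3 + 12 * B * (w + 1) := by
  have hH : 1 ≤ 10 * Z2 + 1 := by linarith
  choose! p hp using hN
  rcases T.eq_empty_or_nonempty with rfl | ⟨t1, ht1⟩
  · have hB1 : 0 ≤ B := le_trans (Nat.cast_nonneg _) (hB 1 one_ne_zero (by
      have := one_le_pow₀ (n := 6) hH
      push_cast
      linarith))
    simp only [card_empty, Nat.cast_zero]
    positivity
  have hx : Real.exp x ≤ 3 := by
    refine le_trans (Real.exp_le_exp.mpr ?_) ((hp t1 ht1).2.exp (by linarith [h.hQ]) h.hη).2.2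
    have : (0 : ℝ) ≤ t1 := by exact_mod_cast (hT t1 ht1).1
    nlinarith
  obtain ⟨α0, α1, α2, β0, β1, β2, hne, hle, hcur⟩ := exists_curve hx hc hL
    (by simpa [abs_of_pos hc] using h.hcL) h.hη h.hQ h0 h01 h12 y0 y1 y2 hY ha hb hv
  have hN' : ∀ t ∈ T, Nr Q η (x + c * t) (((p t).1 : ℤ) : ℝ) (((p t).2 : ℤ) : ℝ) := fun t ht => by
    simpa using (hp t ht).2
  exact card_on_curve h hH hB hne hle (fun t => (p t).1) (fun t => (p t).2) hT hN'
    (fun t ht => Nat.isCoprime_iff_coprime.mpr (hp t ht).1)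
    fun t ht => hcur t _ _ (hT t ht).1 (hT t ht).2 (hN' t ht)

end Pool.Agent.Lib.MP_ecd12e_nt
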