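import Pool.Agent.Lib.MP_ecd12e_nt.Count
import Pool.Agent.Lib.MP_ecd12e_nt.Mean

/-! The mean square of a Dirichlet polynomial over an arithmetic progression. -/

namespace Pool.Agent.Lib.MP_ecd12e_nt

open Finset Real

lemma card_pairs {N : ℕ} (hN : 1 ≤ N) {η c K : ℝ}
    (h : ∀ Q : ℝ, 1 / 2 ≤ Q → Q ≤ N → ∀ S : Finset (ℕ × ℕ), (∀ p ∈ S, Good Q η c p) →
      (S.card : ℝ) ≤ K * Q) (hK : 0 ≤ K) {P : Finset (ℕ × ℕ)}
    (hP : ∀ p ∈ P, p ∈ Icc N (2 * N) ×ˢ Icc N (2 * N) ∧ ∃ k : ℤ, |lg p - k * c| ≤ η) :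
    (P.card : ℝ) ≤ K * N * (1 + log (2 * N : ℕ)) := by
  classical
  have hN0 : (0 : ℝ) < N := by exact_mod_cast hN
  have hb : ∀ p ∈ P, (N ≤ p.1 ∧ p.1 ≤ 2 * N) ∧ N ≤ p.2 ∧ p.2 ≤ 2 * N := fun p hp => by
    simpa only [mem_product, mem_Icc] using (hP p hp).1
  have hg : ∀ p ∈ P, 0 < p.1.gcd p.2 := fun p hp =>
    Nat.gcd_pos_of_pos_left _ (by have := hb p hp; omega)
  rw [card_eq_sum_card_fiberwise (f := fun p : ℕ × ℕ => p.1.gcd p.2 - 1) (t := range (2 * N))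
    fun p hp => mem_coe.mpr (mem_range.mpr (by
      have := hb p hp
      have := Nat.gcd_le_left p.2 (by omega : 0 < p.1)
      change p.1.gcd p.2 - 1 < 2 * N
      omega))]
  push_cast
  refine le_trans (sum_le_sum fun i hi => ?_) ((mul_sum _ (fun i : ℕ => 1 / ((i : ℝ) + 1))
    (K * N)).symm.trans_le (mul_le_mul_of_nonneg_left (by
      exact_mod_cast sum_inv_le (2 * N)) (by positivity)))
  have hi' : (i : ℝ) + 1 ≤ 2 * N := by exact_mod_cast mem_range.mp hi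
  have hi0 : (0 : ℝ) < i + 1 := by positivity
  have key : ∀ p ∈ P.filter fun p : ℕ × ℕ => p.1.gcd p.2 - 1 = i,
      p.1 / (i + 1) * (i + 1) = p.1 ∧ p.2 / (i + 1) * (i + 1) = p.2 ∧
        Nat.Coprime (p.1 / (i + 1)) (p.2 / (i + 1)) := by
    intro p hp
    obtain ⟨h1, h2⟩ := mem_filter.mp hp
    have e : i + 1 = p.1.gcd p.2 := by have := hg p h1; omega
    rw [e]
    exact ⟨Nat.div_mul_cancel (Nat.gcd_dvd_left _ _), Nat.div_mul_cancel (Nat.gcd_dvd_right _ _),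
      Nat.coprime_div_gcd_div_gcd (hg p h1)⟩
  rw [← card_image_of_injOn (f := fun p : ℕ × ℕ => (p.1 / (i + 1), p.2 / (i + 1)))
    fun p hp q hq e => by
      obtain ⟨e1, e2⟩ := Prod.mk.inj e
      refine Prod.ext ?_ ?_
      · rw [← (key p hp).1, ← (key q hq).1, e1]
      · rw [← (key p hp).2.1, ← (key q hq).2.1, e2]]
  refine (h (N / (i + 1)) ?_ (div_le_self hN0.le (by linarith [(Nat.cast_nonneg i : (0 : ℝ) ≤ i)]))
    _ fun q hq => ?_).trans_eq (by ring)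
  · rw [le_div_iff₀ hi0]
    linarith
  · obtain ⟨p, hp, rfl⟩ := mem_image.mp hq
    obtain ⟨k1, k2, k3⟩ := key p hp
    have hp' := (mem_filter.mp hp).1
    obtain ⟨k, hk⟩ := (hP p hp').2
    obtain ⟨⟨b1, b2⟩, b3, b4⟩ := hb p hp'
    have e : ∀ n : ℕ, n / (i + 1) * (i + 1) = n → ((n / (i + 1) : ℕ) : ℝ) = n / (i + 1) :=
      fun n hn => (eq_div_iff hi0.ne').mpr (by exact_mod_cast hn)
    refine ⟨k3, k, ?_⟩
    simp only [e _ k1, e _ k2]
    have lo : ∀ n : ℕ, N ≤ n → (N : ℝ) / (i + 1) ≤ n / (i + 1) := fun n hn =>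
      div_le_div_of_nonneg_right (by exact_mod_cast hn) hi0.le
    have hi : ∀ n : ℕ, n ≤ 2 * N → (n : ℝ) / (i + 1) ≤ 2 * (N / (i + 1)) := fun n hn => by
      rw [← mul_div_assoc]
      exact div_le_div_of_nonneg_right (by exact_mod_cast hn) hi0.le
    refine ⟨lo _ b1, hi _ b2, lo _ b3, hi _ b4, ?_⟩
    rw [log_div (Nat.cast_ne_zero.mpr (by omega)) hi0.ne',
      log_div (Nat.cast_ne_zero.mpr (by omega)) hi0.ne']
    refine (congrArg abs ?_).trans_le hk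
    unfold lg
    ring

theorem mean_square {ε : ℝ} (hε : 0 < ε) : ∃ C : ℝ, 0 ≤ C ∧ ∀ (N R : ℕ) (X a d : ℝ), 1 ≤ N →
    (N : ℝ) ≤ X → (R : ℝ) ≤ X → 1 ≤ d → d ≤ X → d ^ 5 * R ^ 11 ≤ X ^ 14 →
    d ^ 8 * R ^ 11 ≤ X ^ 16 → ∀ b : ℕ → ℂ, (∀ n, ‖b n‖ ≤ 1) →
    ∑ j ∈ range R, ‖∑ n ∈ Icc N (2 * N),
      b n * Complex.exp ((((a + j * d) * log n : ℝ) : ℂ) * Complex.I)‖ ^ 2 ≤
      C * N * X ^ (1 + ε) := by
  classical
  obtain ⟨w, hw⟩ := exists_nat_ge (7 / ε)
  have hw0 : (0 : ℝ) < w := lt_of_lt_of_le (by positivity) hw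
  have hw' : w ≠ 0 := by exact_mod_cast hw0.ne'
  have h2w : (1 : ℝ) ≤ 2 ^ w := one_le_pow₀ (by norm_num)
  obtain ⟨C1, hC1, hτ⟩ := exists_tauLe (k := w * (w + 24)) (by positivity) (A := 512 * 2 ^ w)
    (by linarith)
  refine ⟨12 * (w + 2) ^ 2 * (10 ^ 6 * (w + 1) * C1 ^ 4), by positivity,
    fun N R X a d hN hNX hRX hd hdX d5 d8 b hb => ?_⟩
  have hN1 : (1 : ℝ) ≤ N := by exact_mod_cast hN
  have hX : 1 ≤ X := hN1.trans hNX
  have hX0 : 0 < X := by linarith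
  rcases Nat.eq_zero_or_pos R with rfl | hR
  · simp only [range_zero, sum_empty]
    positivity
  have hR1 : (1 : ℝ) ≤ R := by exact_mod_cast hR
  have hR0 : (0 : ℝ) < R := by linarith
  have hd0 : 0 < d := by linarith
  obtain ⟨y, hy⟩ : ∃ y, y = X ^ (w : ℝ)⁻¹ := ⟨_, rfl⟩
  have hy1 : 1 ≤ y := hy ▸ one_le_rpow hX (by positivity)
  have hyw : y ^ w = X := hy ▸ rpow_inv_natCast_pow hX0.le hw'
  have hy7 : y ^ 7 ≤ X ^ ε := by
    rw [hy, ← rpow_natCast, ← rpow_mul hX0.le]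
    refine rpow_le_rpow_of_exponent_le hX ?_
    rw [div_le_iff₀ hε] at hw
    rw [inv_mul_le_iff₀ hw0]
    exact_mod_cast hw
  obtain ⟨G, hG⟩ : ∃ G, X = R * G := ⟨X / R, by field_simp⟩
  have hG1 : 1 ≤ G := le_of_mul_le_mul_left (by linarith) hR0
  have hτ' := hτ y hy1
  rw [pow_mul, hyw] at hτ'
  have hc : 2 * π / d * d = 2 * π := div_mul_cancel₀ _ hd0.ne'
  have hcount : ∀ Q : ℝ, 1 / 2 ≤ Q → Q ≤ N → ∀ S : Finset (ℕ × ℕ),
      (∀ p ∈ S, Good Q (2 * π / d / R) (2 * π / d) p) →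
      (S.card : ℝ) ≤ 10 ^ 6 * (w + 1) * (C1 * y) ^ 4 * y * G * Q := by
    intro Q h1 h2 S hS
    refine (count hw' h1 hR1 hG1 hd (by linarith [pi_gt_three]) (by linarith [pi_lt_d2]) hy1
      (by rw [hyw, hG]) (hG ▸ hdX) (hG ▸ h2.trans hNX) (hτ'.mono ?_) (hτ'.mono ?_) ?_ ?_
      hS).trans_eq (by ring)
    · rw [← hG]
      exact mul_le_mul (by linarith) (pow_le_pow_right₀ hX (by omega)) (by positivity)
        (by positivity)
    · rw [← hG, mul_pow]
      exact mul_le_mul (by linarith) (pow_le_pow_right₀ hX (by omega)) (by positivity)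
        (by positivity)
    · refine le_of_mul_le_mul_right (d5.trans_eq ?_) (pow_pos hR0 11)
      rw [hG]
      ring
    · refine le_of_mul_le_mul_right (d8.trans_eq ?_) (pow_pos hR0 11)
      rw [hG]
      ring
  have h1 := mean_le (Icc N (2 * N))
    (fun n => b n * Complex.exp (((a * log n : ℝ) : ℂ) * Complex.I))
    (fun n => by
      rw [norm_mul, Complex.norm_exp_ofReal_mul_I, mul_one]
      exact hb n) (fun n => d * log n / (2 * π)) hR
  have e : ∀ j n : ℕ, b n * Complex.exp (((a * log n : ℝ) : ℂ) * Complex.I) *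
      ee (j * (d * log n / (2 * π))) =
      b n * Complex.exp ((((a + j * d) * log n : ℝ) : ℂ) * Complex.I) := by
    intro j n
    have : 2 * π * (j * (d * log n / (2 * π))) = j * d * log n := by field_simp
    rw [ee, this, mul_assoc, ← Complex.exp_add]
    push_cast
    ring_nf
  simp only [e] at h1
  have h2 := card_pairs hN hcount (by positivity)
    (P := (Icc N (2 * N) ×ˢ Icc N (2 * N)).filter fun p =>
      ∃ k : ℤ, |d * log p.1 / (2 * π) - d * log p.2 / (2 * π) - k| ≤ 1 / R) fun p hp => by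
      obtain ⟨a1, k, hk⟩ := mem_filter.mp hp
      refine ⟨a1, k, ?_⟩
      have hpos : 0 < 2 * π / d := by positivity
      have := mul_le_mul_of_nonneg_left hk hpos.le
      rw [← abs_of_pos hpos, ← abs_mul, abs_of_pos hpos, mul_one_div] at this
      refine (congrArg abs ?_).trans_le this
      unfold lg
      field_simp
  have hl : log X ≤ w * y := by
    rw [← hyw, log_pow]
    exact mul_le_mul_of_nonneg_left ((log_le_sub_one_of_pos (by linarith)).trans (by linarith))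
      hw0.le
  have l1 : 1 + log R ≤ (w + 2) * y := by
    have := log_le_log hR0 hRX
    linarith
  have l2 : 1 + log (2 * N : ℕ) ≤ (w + 2) * y := by
    have a1 := log_le_log (by linarith) hNX
    have a2 := log_le_sub_one_of_pos (by norm_num : (0 : ℝ) < 2)
    push_cast
    rw [log_mul (by norm_num) (by linarith)]
    linarith
  have l0 := log_natCast_nonneg R
  refine h1.trans ?_
  calc _ ≤ 12 * R * ((w + 2) * y) *
        (10 ^ 6 * (w + 1) * (C1 * y) ^ 4 * y * G * N * ((w + 2) * y)) := by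
        gcongr
        exact h2.trans (by gcongr)
    _ = 12 * (w + 2) ^ 2 * (10 ^ 6 * (w + 1) * C1 ^ 4) * N * (R * G * y ^ 7) := by ring
    _ ≤ _ := by
        rw [← hG, rpow_add hX0, rpow_one]
        gcongr

end Pool.Agent.Lib.MP_ecd12e_nt
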