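import Pool.Agent.Lib.MP_ecd12e_nt.Sep

/-! The auxiliary quadratics, by the pigeonhole principle. -/

namespace Pool.Agent.Lib.MP_ecd12e_nt

open Finset

/-- `a`, `b` lie in `[Q, 2 Q]` and `log a - log b` is within `η` of `z`. -/
structure Nr (Q η z a b : ℝ) : Prop where
  lo1 : Q ≤ a
  hi1 : a ≤ 2 * Q
  lo2 : Q ≤ b
  hi2 : b ≤ 2 * Q
  near : |Real.log a - Real.log b - z| ≤ η

lemma Nr.symm {Q η z a b : ℝ} (h : Nr Q η z a b) : Nr Q η (-z) b a :=
  ⟨h.lo2, h.hi2, h.lo1, h.hi1, by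
    rw [← abs_neg]
    exact (congrArg abs (by ring)).trans_le h.near⟩

lemma Nr.exp {Q η z a b : ℝ} (h : Nr Q η z a b) (hQ : 0 < Q) (hη : η ≤ 1 / 10) :
    |b * Real.exp z - a| ≤ 4 * Q * η ∧ 1 / 3 ≤ Real.exp z ∧ Real.exp z ≤ 3 := by
  have ha : 0 < a := hQ.trans_le h.lo1
  have hb : 0 < b := hQ.trans_le h.lo2
  have e : b * Real.exp z = a * Real.exp (-(Real.log a - Real.log b - z)) := by
    rw [neg_sub, sub_sub_eq_add_sub, Real.exp_sub, Real.exp_add, Real.exp_log ha, Real.exp_log hb]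
    field_simp
  have h1 := Real.abs_exp_sub_one_le (x := -(Real.log a - Real.log b - z))
    (by rw [abs_neg]; linarith [h.near])
  rw [abs_neg] at h1
  have h0 : 0 ≤ η := (abs_nonneg _).trans h.near
  have h2 : |b * Real.exp z - a| ≤ a * (2 * η) := by
    rw [e, ← mul_sub_one, abs_mul, abs_of_pos ha]
    exact mul_le_mul_of_nonneg_left (by linarith [h.near]) ha.le
  have h3 := abs_le.mp h2
  have h4 := Real.exp_pos z
  refine ⟨h2.trans (by nlinarith [h.hi1]), ?_, ?_⟩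
  · by_contra hc
    have : b * Real.exp z ≤ 2 * Q * (1 / 3) := mul_le_mul h.hi2 (not_le.mp hc).le h4.le (by linarith)
    nlinarith [h.lo1]
  · by_contra hc
    have : Q * 3 < b * Real.exp z := mul_lt_mul' h.lo2 (not_le.mp hc) (by norm_num) hb
    nlinarith [h.hi1]

lemma dirichlet {ι σ : Type*} [Fintype ι] (S : Finset σ) (g : σ → ι → ℝ) (U : ι → ℝ)
    (hU : ∀ i, 0 ≤ U i) (hg : ∀ s ∈ S, ∀ i, 0 ≤ g s i ∧ g s i ≤ U i)
    (h : ∏ i, (U i + 1) < S.card) :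
    ∃ s ∈ S, ∃ s' ∈ S, s ≠ s' ∧ ∀ i, |g s i - g s' i| ≤ 1 := by
  classical
  have h1 : (Fintype.piFinset fun i => range (⌊U i⌋₊ + 1)).card < S.card := by
    have : ((Fintype.piFinset fun i => range (⌊U i⌋₊ + 1)).card : ℝ) ≤ ∏ i, (U i + 1) := by
      rw [Fintype.card_piFinset]
      push_cast
      refine prod_le_prod (fun i _ => Nat.cast_nonneg _) fun i _ => ?_
      rw [card_range]
      push_cast
      linarith [Nat.floor_le (hU i)]
    exact_mod_cast this.trans_lt h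
  obtain ⟨s, hs, s', hs', hne, e⟩ := exists_ne_map_eq_of_card_lt_of_maps_to h1
    (f := fun s i => ⌊g s i⌋₊) fun s hs => mem_coe.mpr (Fintype.mem_piFinset.mpr fun i =>
      mem_range.mpr (Nat.lt_succ_of_le (Nat.floor_le_floor (hg s hs i).2)))
  refine ⟨s, hs, s', hs', hne, fun i => ?_⟩
  have e' : ⌊g s i⌋₊ = ⌊g s' i⌋₊ := congrFun e i
  have b1 := Nat.floor_le (hg s hs i).1
  have b2 := Nat.floor_le (hg s' hs' i).1
  have c1 := Nat.lt_floor_add_one (g s i)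
  have c2 := Nat.lt_floor_add_one (g s' i)
  rw [e'] at b1 c1
  exact abs_le.mpr ⟨by linarith, by linarith⟩

lemma exp_rem {u : ℝ} (h0 : 0 ≤ u) (h1 : u ≤ 1) :
    |Real.exp u - (1 + u)| ≤ u ^ 2 ∧ |Real.exp u - (1 + u + u ^ 2 / 2)| ≤ u ^ 3 ∧
      |Real.exp u - (1 + u + u ^ 2 / 2 + u ^ 3 / 6)| ≤ u ^ 4 := by
  have hu : |u| ≤ 1 := by rwa [abs_of_nonneg h0]
  have a2 := Real.exp_bound hu (n := 2) (by norm_num)
  have a3 := Real.exp_bound hu (n := 3) (by norm_num)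
  have a4 := Real.exp_bound hu (n := 4) (by norm_num)
  rw [abs_of_nonneg h0] at a2 a3 a4
  simp only [sum_range_succ, sum_range_zero, Nat.factorial, Nat.succ_eq_add_one] at a2 a3 a4
  norm_num at a2 a3 a4
  refine ⟨a2.trans ?_, a3.trans ?_, a4.trans ?_⟩
  · nlinarith [pow_nonneg h0 2]
  · nlinarith [pow_nonneg h0 3]
  · nlinarith [pow_nonneg h0 4]

lemma fract_near {y y' H : ℝ} (hH : 0 < H) (h : |H * Int.fract y - H * Int.fract y'| ≤ 1) :
    ∃ β : ℤ, H * |y - y' - β| ≤ 1 := by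
  refine ⟨⌊y⌋ - ⌊y'⌋, ?_⟩
  rw [← abs_of_pos hH, ← abs_mul]
  refine (congrArg abs ?_).trans_le h
  simp only [Int.fract]
  push_cast
  ring

lemma abs_sub_le_of_range {m n : ℕ} {Z : ℝ} (hZ : 0 ≤ Z) (hm : m ∈ range (⌊Z⌋₊ + 1))
    (hn : n ∈ range (⌊Z⌋₊ + 1)) : |(m : ℝ) - n| ≤ Z := by
  have a1 : (m : ℝ) ≤ ⌊Z⌋₊ := by exact_mod_cast Nat.lt_succ_iff.mp (mem_range.mp hm)
  have a2 : (n : ℝ) ≤ ⌊Z⌋₊ := by exact_mod_cast Nat.lt_succ_iff.mp (mem_range.mp hn)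
  have := Nat.floor_le hZ
  have : (0 : ℝ) ≤ m := Nat.cast_nonneg _
  have : (0 : ℝ) ≤ n := Nat.cast_nonneg _
  exact abs_le.mpr ⟨by linarith, by linarith⟩

lemma exists_coeffs {x c L Q Z0 Z1 Z2 : ℝ} (hx0 : 0 ≤ x) (hx : x ≤ 3) (hc : 0 < c) (hL : 1 ≤ L)
    (hQ : 1 / 2 ≤ Q) (h0 : 0 < Z0) (h01 : Z0 ≤ Z1) (h12 : Z1 ≤ Z2)
    (hb : 1 ≤ 100 * Q * Z2 * (c * L) ^ 3) (hv : 2 * 10 ^ 7 * Q ^ 4 * L ^ 6 ≤ Z0 * Z1) :
    ∃ α0 α1 α2 β0 β1 β2 : ℤ, ¬(α0 = 0 ∧ α1 = 0 ∧ α2 = 0) ∧ |(α0 : ℝ)| ≤ Z0 ∧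
      |(α1 : ℝ)| ≤ Z1 * c ∧ |(α2 : ℝ)| ≤ Z2 * c ^ 2 ∧ 20 * Q * |x * α0 - β0| ≤ 1 ∧
      20 * Q * L * |x * (α0 * c + α1) - β1| ≤ 1 ∧
      20 * Q * L ^ 2 * |x * (α0 * c ^ 2 / 2 + α1 * c + α2) - β2| ≤ 1 ∧
      20 * Q * L ^ 3 * |x * (α0 * c ^ 3 / 6 + α1 * c ^ 2 / 2 + α2 * c)| ≤ 1 := by
  have hZ1 : 0 < Z1 := h0.trans_le h01
  have hZ2 : 0 < Z2 := hZ1.trans_le h12
  have hQ0 : 0 < Q := by linarith
  have hL0 : 0 < L := by linarith
  obtain ⟨s, hs, s', hs', hne, h⟩ := dirichlet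
    (range (⌊Z0⌋₊ + 1) ×ˢ range (⌊Z1 * c⌋₊ + 1) ×ˢ range (⌊Z2 * c ^ 2⌋₊ + 1))
    (fun s : ℕ × ℕ × ℕ => ![20 * Q * Int.fract (x * s.1),
      20 * Q * L * Int.fract (x * (s.1 * c + s.2.1)),
      20 * Q * L ^ 2 * Int.fract (x * (s.1 * c ^ 2 / 2 + s.2.1 * c + s.2.2)),
      20 * Q * L ^ 3 * (x * (s.1 * c ^ 3 / 6 + s.2.1 * c ^ 2 / 2 + s.2.2 * c))])
    ![20 * Q, 20 * Q * L, 20 * Q * L ^ 2, 100 * Q * Z2 * (c * L) ^ 3]
    (by
      intro i
      fin_cases i <;> simp <;> positivity)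
    (by
      intro s hs i
      have fr : ∀ H y : ℝ, 0 ≤ H → 0 ≤ H * Int.fract y ∧ H * Int.fract y ≤ H := fun H y hH =>
        ⟨mul_nonneg hH (Int.fract_nonneg y), mul_le_of_le_one_right hH (Int.fract_lt_one y).le⟩
      fin_cases i
      · exact fr _ _ (by positivity)
      · exact fr _ _ (by positivity)
      · exact fr _ _ (by positivity)
      · simp only [mem_product] at hs
        have a0 := abs_sub_le_of_range h0.le hs.1 (mem_range.mpr (Nat.succ_pos _))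
        have a1 := abs_sub_le_of_range (by positivity) hs.2.1 (mem_range.mpr (Nat.succ_pos _))
        have a2 := abs_sub_le_of_range (by positivity) hs.2.2 (mem_range.mpr (Nat.succ_pos _))
        simp only [Nat.cast_zero, sub_zero, Nat.abs_cast] at a0 a1 a2
        have b0 : (s.1 : ℝ) * c ^ 3 ≤ Z2 * c ^ 3 := by gcongr; linarith
        have b1 : (s.2.1 : ℝ) * c ^ 2 ≤ Z2 * c * c ^ 2 := by
          gcongr
          exact a1.trans (by gcongr)
        have b2 : (s.2.2 : ℝ) * c ≤ Z2 * c ^ 2 * c := by gcongr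
        have b3 : x * (s.1 * c ^ 3 / 6 + s.2.1 * c ^ 2 / 2 + s.2.2 * c) ≤
            3 * (5 / 3 * (Z2 * c ^ 3)) := by
          gcongr
          linarith
        simp only [Fin.reduceFinMk, Matrix.cons_val]
        refine ⟨by positivity, ?_⟩
        calc _ ≤ 20 * Q * L ^ 3 * (3 * (5 / 3 * (Z2 * c ^ 3))) := by gcongr
          _ = _ := by ring)
    (by
      rw [Fin.prod_univ_four, card_product, card_product, card_range, card_range, card_range]
      simp only [Matrix.cons_val]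
      push_cast
      have a0 : 20 * Q + 1 ≤ 40 * Q := by linarith
      have a1 : 20 * Q * L + 1 ≤ 40 * Q * L := by nlinarith
      have a2 : 20 * Q * L ^ 2 + 1 ≤ 40 * Q * L ^ 2 := by nlinarith [one_le_pow₀ (n := 2) hL]
      have a3 : 100 * Q * Z2 * (c * L) ^ 3 + 1 ≤ 200 * Q * Z2 * (c * L) ^ 3 := by linarith
      have c0 := Nat.lt_floor_add_one Z0
      have c1 := (Nat.lt_floor_add_one (Z1 * c)).le
      have c2 := (Nat.lt_floor_add_one (Z2 * c ^ 2)).le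
      calc _ ≤ 40 * Q * (40 * Q * L) * (40 * Q * L ^ 2) * (200 * Q * Z2 * (c * L) ^ 3) := by
            gcongr
        _ = 128 * 10 ^ 5 * Q ^ 4 * L ^ 6 * (Z2 * c ^ 3) := by ring
        _ ≤ Z0 * Z1 * (Z2 * c ^ 3) := by
            refine mul_le_mul_of_nonneg_right (le_trans ?_ hv) (by positivity)
            exact mul_le_mul_of_nonneg_right (mul_le_mul_of_nonneg_right (by norm_num)
              (by positivity)) (by positivity)
        _ = Z0 * (Z1 * c * (Z2 * c ^ 2)) := by ring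
        _ < _ := mul_lt_mul c0 (by gcongr) (by positivity) (by positivity))
  simp only [mem_product] at hs hs'
  obtain ⟨β0, k0⟩ := fract_near (by positivity) (h 0)
  obtain ⟨β1, k1⟩ := fract_near (by positivity) (h 1)
  obtain ⟨β2, k2⟩ := fract_near (by positivity) (h 2)
  have k3 := h 3
  simp only [Matrix.cons_val] at k3
  refine ⟨s.1 - s'.1, s.2.1 - s'.2.1, s.2.2 - s'.2.2, β0, β1, β2, ?_, ?_, ?_, ?_, ?_, ?_, ?_, ?_⟩
  · rintro ⟨e0, e1, e2⟩
    exact hne (Prod.ext (by omega) (Prod.ext (by omega) (by omega)))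
  · exact_mod_cast abs_sub_le_of_range h0.le hs.1 hs'.1
  · exact_mod_cast abs_sub_le_of_range (by positivity) hs.2.1 hs'.2.1
  · exact_mod_cast abs_sub_le_of_range (by positivity) hs.2.2 hs'.2.2
  · refine le_of_eq_of_le (congrArg (_ * ·) (congrArg abs ?_)) k0
    push_cast
    ring
  · refine le_of_eq_of_le (congrArg (_ * ·) (congrArg abs ?_)) k1
    push_cast
    ring
  · refine le_of_eq_of_le (congrArg (_ * ·) (congrArg abs ?_)) k2
    push_cast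
    ring
  · rw [← mul_sub, abs_mul, abs_of_pos (by positivity : 0 < 20 * Q * L ^ 3)] at k3
    refine le_of_eq_of_le (congrArg (_ * ·) (congrArg abs ?_)) k3
    push_cast
    ring

/-- All good points of a short interval lie on a curve `A(t) a = B(t) b`. -/
lemma exists_curve {x c η L Q Y Z0 Z1 Z2 : ℝ} (hx : Real.exp x ≤ 3) (hc : 0 < c) (hL : 1 ≤ L)
    (hcL : c * L ≤ 1 / 10) (hη : η ≤ 1 / 10)
    (hQ : 1 / 2 ≤ Q) (h0 : 0 < Z0) (h01 : Z0 ≤ Z1) (h12 : Z1 ≤ Z2) (y0 : Z0 ≤ Y)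
    (y1 : Z1 * (c * L) ≤ Y) (y2 : Z2 * (c * L) ^ 2 ≤ Y) (hY : 100 * Q * η * Y ≤ 1)
    (ha : 100 * Q * Z2 * (c * L) ^ 4 ≤ 1)
    (hb : 1 ≤ 100 * Q * Z2 * (c * L) ^ 3) (hv : 2 * 10 ^ 7 * Q ^ 4 * L ^ 6 ≤ Z0 * Z1) :
    ∃ α0 α1 α2 β0 β1 β2 : ℤ, ¬(α0 = 0 ∧ α1 = 0 ∧ α2 = 0) ∧
      (∀ γ ∈ [α0, α1, α2, β0, β1, β2], |(γ : ℝ)| ≤ 10 * Z2 + 1) ∧
      ∀ t a b : ℤ, 0 ≤ t → (t : ℝ) ≤ L → Nr Q η (x + c * t) a b →
        (α0 + α1 * t + α2 * t ^ 2) * a = (β0 + β1 * t + β2 * t ^ 2) * b := by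
  obtain ⟨α0, α1, α2, β0, β1, β2, hne, a0, a1, a2, k0, k1, k2, k3⟩ :=
    exists_coeffs (Real.exp_pos x).le hx hc hL hQ h0 h01 h12 hb hv
  have hZ1 : 0 < Z1 := h0.trans_le h01
  have hZ2 : 0 < Z2 := hZ1.trans_le h12
  have hQ0 : 0 < Q := by linarith
  have hc1 : c ≤ 1 := by nlinarith
  have hX := Real.exp_pos x
  set X := Real.exp x
  have a0' : |(α0 : ℝ)| ≤ Z2 := by linarith
  have a1' : |(α1 : ℝ)| ≤ Z2 * c := a1.trans (by gcongr)
  refine ⟨α0, α1, α2, β0, β1, β2, hne, ?_, fun t a b ht htL hN => ?_⟩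
  · have a1'' : |(α1 : ℝ)| ≤ Z2 := a1'.trans (mul_le_of_le_one_right hZ2.le hc1)
    have a2'' : |(α2 : ℝ)| ≤ Z2 := a2.trans (mul_le_of_le_one_right hZ2.le (pow_le_one₀ hc.le hc1))
    have key : ∀ y β H : ℝ, |y| ≤ 3 * Z2 → 1 ≤ H → H * |X * y - β| ≤ 1 → |β| ≤ 10 * Z2 + 1 := by
      intro y β H h1 h2 h3
      have h4 : |X * y - β| ≤ 1 := (le_mul_of_one_le_left (abs_nonneg _) h2).trans h3
      have h5 : |X * y| ≤ 3 * (3 * Z2) := by
        rw [abs_mul, abs_of_pos hX]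
        gcongr
      have := abs_le.mp h4
      have := abs_le.mp h5
      exact abs_le.mpr ⟨by linarith, by linarith⟩
    have m : ∀ (y r : ℝ), |y| ≤ Z2 → 0 ≤ r → r ≤ 1 → |y * r| ≤ Z2 := fun y r h1 h2 h3 => by
      rw [abs_mul, abs_of_nonneg h2]
      exact (mul_le_of_le_one_right (abs_nonneg _) h3).trans h1
    have m1 := abs_le.mp (m _ c a0' hc.le hc1)
    have m2 := abs_le.mp (m _ (c ^ 2) a0' (by positivity) (pow_le_one₀ hc.le hc1))
    have m3 := abs_le.mp (m _ c a1'' hc.le hc1)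
    have m4 := abs_le.mp a1''
    have m5 := abs_le.mp a2''
    simp only [List.mem_cons, List.not_mem_nil, or_false]
    rintro γ (rfl | rfl | rfl | rfl | rfl | rfl)
    · linarith
    · linarith
    · linarith
    · exact key _ _ _ (by linarith) (by linarith) k0
    · exact key _ _ _ (abs_le.mpr ⟨by linarith, by linarith⟩) (by nlinarith) k1
    · exact key _ _ _ (abs_le.mpr ⟨by linarith, by linarith⟩)
        (by nlinarith [one_le_pow₀ (n := 2) hL]) k2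
  · have ht' : (0 : ℝ) ≤ t := by exact_mod_cast ht
    obtain ⟨n1, -, -⟩ := hN.exp hQ0 hη
    have hη0 : 0 ≤ η := (abs_nonneg _).trans hN.near
    have hu : c * t ≤ c * L := by gcongr
    obtain ⟨r2, r3, r4⟩ := exp_rem (u := c * t) (by positivity) (by linarith)
    rw [Real.exp_add] at n1
    set E := Real.exp (c * t)
    have hA : |(α0 : ℝ) + α1 * t + α2 * t ^ 2| ≤ 3 * Y := by
      have b1 : |(α1 : ℝ) * t| ≤ Z1 * c * L := by
        rw [abs_mul, abs_of_nonneg ht']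
        gcongr
      have b2 : |(α2 : ℝ) * t ^ 2| ≤ Z2 * c ^ 2 * L ^ 2 := by
        rw [abs_mul, abs_of_nonneg (by positivity : (0 : ℝ) ≤ t ^ 2)]
        gcongr
      refine (abs_add_three _ _ _).trans ?_
      nlinarith
    have t1 : ∀ (y : ℝ) (i : ℕ), 20 * Q * L ^ i * |y| ≤ 1 → |y * t ^ i| ≤ 1 / (20 * Q) := by
      intro y i h
      rw [le_div_iff₀ (by positivity), abs_mul, abs_of_nonneg (by positivity : (0 : ℝ) ≤ t ^ i)]
      calc |y| * t ^ i * (20 * Q) ≤ |y| * L ^ i * (20 * Q) := by gcongr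
        _ = _ := by ring
        _ ≤ 1 := h
    have s0 := t1 _ 0 (by simpa using k0)
    have s1 := t1 _ 1 (by simpa using k1)
    have s2 := t1 _ 2 k2
    have s3 := t1 _ 3 k3
    have w : Z2 * (c * t) ^ 4 ≤ 1 / (100 * Q) := by
      rw [le_div_iff₀ (by positivity)]
      calc _ ≤ Z2 * (c * L) ^ 4 * (100 * Q) := by gcongr
        _ = _ := by ring
        _ ≤ 1 := ha
    have w4 : |X * α0 * (E - (1 + c * t + (c * t) ^ 2 / 2 + (c * t) ^ 3 / 6))| ≤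
        3 * (Z2 * (c * t) ^ 4) := by
      rw [abs_mul, abs_mul, abs_of_pos hX, ← mul_assoc]
      gcongr
    have w3 : |X * α1 * t * (E - (1 + c * t + (c * t) ^ 2 / 2))| ≤ 3 * (Z2 * (c * t) ^ 4) := by
      rw [abs_mul, abs_mul, abs_mul, abs_of_pos hX, abs_of_nonneg ht']
      calc _ ≤ 3 * (Z2 * c) * t * (c * t) ^ 3 := by gcongr
        _ = _ := by ring
    have w2 : |X * α2 * t ^ 2 * (E - (1 + c * t))| ≤ 3 * (Z2 * (c * t) ^ 4) := by
      rw [abs_mul, abs_mul, abs_mul, abs_of_pos hX,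
        abs_of_nonneg (by positivity : (0 : ℝ) ≤ t ^ 2)]
      calc _ ≤ 3 * (Z2 * c ^ 2) * t ^ 2 * (c * t) ^ 2 := by gcongr
        _ = _ := by ring
    have hF : |((α0 : ℝ) + α1 * t + α2 * t ^ 2) * (X * E) - (β0 + β1 * t + β2 * t ^ 2)| ≤
        3 / 10 / Q := by
      have e1 : 1 / (20 * Q) = 1 / 20 / Q := by field_simp
      have e2 : 1 / (100 * Q) = 1 / 100 / Q := by field_simp
      have e3 : 3 / 10 / Q = 30 * (1 / 100 / Q) := by ring
      have e4 : 1 / 20 / Q = 5 * (1 / 100 / Q) := by ring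
      have e5 : 0 < 1 / 100 / Q := by positivity
      rw [e1, e4] at s0 s1 s2 s3
      rw [e2] at w
      rw [e3]
      have := abs_le.mp s0
      have := abs_le.mp s1
      have := abs_le.mp s2
      have := abs_le.mp s3
      have := abs_le.mp w2
      have := abs_le.mp w3
      have := abs_le.mp w4
      exact abs_le.mpr ⟨by linarith, by linarith⟩
    have hb0 : (0 : ℝ) < b := hQ0.trans_le hN.lo2
    have g1 : |((α0 : ℝ) + α1 * t + α2 * t ^ 2) * (b * (X * E) - a)| ≤ 3 * Y * (4 * Q * η) := by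
      rw [abs_mul]
      gcongr
      exact (abs_nonneg _).trans hA
    have g2 : |(b : ℝ) * (((α0 : ℝ) + α1 * t + α2 * t ^ 2) * (X * E) -
        (β0 + β1 * t + β2 * t ^ 2))| ≤ 2 * Q * (3 / 10 / Q) := by
      rw [abs_mul, abs_of_pos hb0]
      gcongr
      exact hN.hi2
    have e : 2 * Q * (3 / 10 / Q) = 3 / 5 := by
      field_simp
      norm_num
    rw [e] at g2
    have := abs_le.mp g1
    have := abs_le.mp g2
    have hfin : |(((α0 + α1 * t + α2 * t ^ 2) * a - (β0 + β1 * t + β2 * t ^ 2) * b : ℤ) : ℝ)|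
        < 1 := by
      push_cast
      exact abs_lt.mpr ⟨by linarith, by linarith⟩
    have : |(α0 + α1 * t + α2 * t ^ 2) * a - (β0 + β1 * t + β2 * t ^ 2) * b| < 1 := by
      exact_mod_cast hfin
    exact sub_eq_zero.mp (Int.abs_lt_one_iff.mp this)

end Pool.Agent.Lib.MP_ecd12e_nt
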