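import Pool.Agent.Lib.MP_ecd12e_nt.Main

namespace Pool.Agent.Results.MP_ecd12e_nt.Progressions

/-- Large values of `D(t) = ∑_{N ≤ n ≤ 2N} b_n n^{it}` on an arithmetic progression
`a, a + d, …, a + (R - 1) d`. The case `X = N` is Montgomery's bound `N ^ (2 - 2 σ + ε)`. -/
theorem result : ∀ ε : ℝ, ε > 0 → ∃ C : ℝ, ∀ (N R : ℕ) (X a d σ : ℝ), 1 ≤ N →
    (N : ℝ) ≤ X → (R : ℝ) ≤ X → 1 ≤ d → d ≤ X → d ^ 5 * (R : ℝ) ^ 11 ≤ X ^ 14 →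
    d ^ 8 * (R : ℝ) ^ 11 ≤ X ^ 16 →
    ∀ b : ℕ → ℂ, (∀ n, ‖b n‖ ≤ 1) →
    ∀ W : Finset ℝ,
      (∀ t ∈ W, (∃ j : ℕ, j < R ∧ t = a + j * d) ∧
        (N : ℝ) ^ σ < ‖∑ n ∈ Finset.Icc N (2 * N),
            b n * Complex.exp (((t * Real.log (n : ℝ) : ℝ) : ℂ) * Complex.I)‖) →
      (W.card : ℝ) ≤ C * (N : ℝ) ^ (1 - 2 * σ) * X ^ (1 + ε) := by
  intro ε hε
  obtain ⟨C, -, hC⟩ := Pool.Agent.Lib.MP_ecd12e_nt.mean_square hε
  refine ⟨C, fun N R X a d σ hN h1 h2 hd h3 h4 h5 b hb W hW => ?_⟩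
  have hN0 : (0 : ℝ) < N := by exact_mod_cast hN
  have h6 : W ⊆ (Finset.range R).image fun j : ℕ => a + j * d := fun t ht => by
    obtain ⟨j, hj, e⟩ := (hW t ht).1
    exact Finset.mem_image.mpr ⟨j, Finset.mem_range.mpr hj, e.symm⟩
  have h7 := (Finset.card_nsmul_le_sum W _ _ fun t ht =>
    pow_le_pow_left₀ (by positivity) (hW t ht).2.le 2).trans
    ((Finset.sum_le_sum_of_subset_of_nonneg h6 fun _ _ _ => by positivity).trans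
      ((Finset.sum_image_le_of_nonneg fun _ _ => by positivity).trans
        (hC N R X a d hN h1 h2 hd h3 h4 h5 b hb)))
  rw [nsmul_eq_mul] at h7
  refine le_of_mul_le_mul_right (h7.trans_eq ?_) (by positivity : (0 : ℝ) < ((N : ℝ) ^ σ) ^ 2)
  have e : (N : ℝ) ^ (1 - 2 * σ) * ((N : ℝ) ^ σ) ^ 2 = N := by
    rw [sq, ← Real.rpow_add hN0, ← Real.rpow_add hN0]
    exact (congrArg _ (by ring)).trans (Real.rpow_one _)
  linear_combination (-C * X ^ (1 + ε)) * e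

end Pool.Agent.Results.MP_ecd12e_nt.Progressions
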