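import Pool.Agent.Lib.MP_ecd12e_nt.Pigeon

/-! Upper bounds for the leading coefficient of a curve that follows the exponential. -/

namespace Pool.Agent.Lib.MP_ecd12e_nt

open Set

lemma rolle2 {h h1 h2 : ℝ → ℝ} (d1 : ∀ t, HasDerivAt h (h1 t) t)
    (d2 : ∀ t, HasDerivAt h1 (h2 t) t) {s0 s1 s2 : ℝ} (l1 : s0 < s1) (l2 : s1 < s2)
    (z0 : h s0 = 0) (z1 : h s1 = 0) (z2 : h s2 = 0) : ∃ ξ ∈ Ioo s0 s2, h2 ξ = 0 := by
  have c0 : Continuous h := continuous_iff_continuousAt.mpr fun t => (d1 t).continuousAt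
  have c1 : Continuous h1 := continuous_iff_continuousAt.mpr fun t => (d2 t).continuousAt
  obtain ⟨a, ha, ea⟩ := exists_hasDerivAt_eq_zero l1 c0.continuousOn (z0.trans z1.symm)
    fun t _ => d1 t
  obtain ⟨b, hb, eb⟩ := exists_hasDerivAt_eq_zero l2 c0.continuousOn (z1.trans z2.symm)
    fun t _ => d1 t
  obtain ⟨ξ, hξ, e⟩ := exists_hasDerivAt_eq_zero (ha.2.trans hb.1) c1.continuousOn
    (ea.trans eb.symm) fun t _ => d2 t
  exact ⟨ξ, ⟨ha.1.trans hξ.1, hξ.2.trans hb.2⟩, e⟩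

lemma rolle3 {h h1 h2 h3 : ℝ → ℝ} (d1 : ∀ t, HasDerivAt h (h1 t) t)
    (d2 : ∀ t, HasDerivAt h1 (h2 t) t) (d3 : ∀ t, HasDerivAt h2 (h3 t) t) {s0 s1 s2 s3 : ℝ}
    (l1 : s0 < s1) (l2 : s1 < s2) (l3 : s2 < s3) (z0 : h s0 = 0) (z1 : h s1 = 0) (z2 : h s2 = 0)
    (z3 : h s3 = 0) : ∃ ξ ∈ Ioo s0 s3, h3 ξ = 0 := by
  have c0 : Continuous h := continuous_iff_continuousAt.mpr fun t => (d1 t).continuousAt
  obtain ⟨a, ha, ea⟩ := exists_hasDerivAt_eq_zero l1 c0.continuousOn (z0.trans z1.symm)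
    fun t _ => d1 t
  obtain ⟨b, hb, eb⟩ := exists_hasDerivAt_eq_zero l2 c0.continuousOn (z1.trans z2.symm)
    fun t _ => d1 t
  obtain ⟨c, hc, ec⟩ := exists_hasDerivAt_eq_zero l3 c0.continuousOn (z2.trans z3.symm)
    fun t _ => d1 t
  obtain ⟨ξ, hξ, e⟩ := rolle2 d2 d3 (ha.2.trans hb.1) (hb.2.trans hc.1) ea eb ec
  exact ⟨ξ, ⟨ha.1.trans hξ.1, hξ.2.trans hc.2⟩, e⟩

/-- exponential times quadratic minus cubic -/
noncomputable def ph (x c p0 p1 p2 r0 r1 r2 r3 t : ℝ) : ℝ :=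
  Real.exp (x + c * t) * (p0 + p1 * t + p2 * t ^ 2) - (r0 + r1 * t + r2 * t ^ 2 + r3 * t ^ 3)

lemma ph_deriv (x c p0 p1 p2 r0 r1 r2 r3 t : ℝ) :
    HasDerivAt (ph x c p0 p1 p2 r0 r1 r2 r3)
      (ph x c (c * p0 + p1) (c * p1 + 2 * p2) (c * p2) r1 (2 * r2) (3 * r3) 0 t) t := by
  have h0 := hasDerivAt_id' t
  have h1 := ((h0.const_mul c).const_add x).exp
  have h2 := ((h0.const_mul p1).const_add p0).add ((h0.pow 2).const_mul p2)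
  have h3 := (((h0.const_mul r1).const_add r0).add ((h0.pow 2).const_mul r2)).add
    ((h0.pow 3).const_mul r3)
  refine ((h1.mul h2).sub h3).congr_deriv ?_
  simp only [ph, Pi.add_apply, Pi.pow_apply]
  push_cast
  ring

lemma abs_div_le_of {F D Φ m : ℝ} (hm : 0 < m) (hF : |F| ≤ Φ) (hD : m ≤ |D|) :
    |F / D| ≤ Φ / m := by
  rw [abs_div]
  exact div_le_div₀ ((abs_nonneg _).trans hF) hF hm hD

lemma interp2 {s0 s1 s2 μ Φ F0 F1 F2 : ℝ} (hμ : 0 < μ) (l1 : s0 + μ ≤ s1) (l2 : s1 + μ ≤ s2)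
    (h0 : |F0| ≤ Φ) (h1 : |F1| ≤ Φ) (h2 : |F2| ≤ Φ) :
    ∃ r0 r1 r2 : ℝ, F0 = r0 + r1 * s0 + r2 * s0 ^ 2 ∧ F1 = r0 + r1 * s1 + r2 * s1 ^ 2 ∧
      F2 = r0 + r1 * s2 + r2 * s2 ^ 2 ∧ |r2| ≤ 3 * (Φ / μ ^ 2) := by
  have n01 : s1 - s0 ≠ 0 := by linarith |> fun h : 0 < s1 - s0 => h.ne'
  have n02 : s2 - s0 ≠ 0 := by linarith |> fun h : 0 < s2 - s0 => h.ne'
  have n12 : s2 - s1 ≠ 0 := by linarith |> fun h : 0 < s2 - s1 => h.ne'
  have key : ∀ F a b : ℝ, |F| ≤ Φ → μ ≤ a → μ ≤ b → |F / (a * b)| ≤ Φ / μ ^ 2 := by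
    intro F a b hF ha hb
    refine abs_div_le_of (by positivity) hF (le_trans ?_ (le_abs_self _))
    rw [sq]
    exact mul_le_mul ha hb hμ.le (hμ.le.trans ha)
  have k0 := abs_le.mp (key F0 (s1 - s0) (s2 - s0) h0 (by linarith) (by linarith))
  have k1 := abs_le.mp (key F1 (s1 - s0) (s2 - s1) h1 (by linarith) (by linarith))
  have k2 := abs_le.mp (key F2 (s2 - s0) (s2 - s1) h2 (by linarith) (by linarith))
  refine ⟨F0 / ((s1 - s0) * (s2 - s0)) * (s1 * s2) - F1 / ((s1 - s0) * (s2 - s1)) * (s0 * s2) +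
      F2 / ((s2 - s0) * (s2 - s1)) * (s0 * s1),
    -(F0 / ((s1 - s0) * (s2 - s0)) * (s1 + s2)) + F1 / ((s1 - s0) * (s2 - s1)) * (s0 + s2) -
      F2 / ((s2 - s0) * (s2 - s1)) * (s0 + s1),
    F0 / ((s1 - s0) * (s2 - s0)) - F1 / ((s1 - s0) * (s2 - s1)) + F2 / ((s2 - s0) * (s2 - s1)),
    ?_, ?_, ?_, abs_le.mpr ⟨by linarith, by linarith⟩⟩ <;>
  · field_simp
    ring

lemma interp3 {s0 s1 s2 s3 μ Φ F0 F1 F2 F3 : ℝ} (hμ : 0 < μ) (l1 : s0 + μ ≤ s1)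
    (l2 : s1 + μ ≤ s2) (l3 : s2 + μ ≤ s3) (h0 : |F0| ≤ Φ) (h1 : |F1| ≤ Φ) (h2 : |F2| ≤ Φ)
    (h3 : |F3| ≤ Φ) :
    ∃ r0 r1 r2 r3 : ℝ, F0 = r0 + r1 * s0 + r2 * s0 ^ 2 + r3 * s0 ^ 3 ∧
      F1 = r0 + r1 * s1 + r2 * s1 ^ 2 + r3 * s1 ^ 3 ∧
      F2 = r0 + r1 * s2 + r2 * s2 ^ 2 + r3 * s2 ^ 3 ∧
      F3 = r0 + r1 * s3 + r2 * s3 ^ 2 + r3 * s3 ^ 3 ∧ |r3| ≤ 4 * (Φ / μ ^ 3) := by
  have n01 : s1 - s0 ≠ 0 := by linarith |> fun h : 0 < s1 - s0 => h.ne'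
  have n02 : s2 - s0 ≠ 0 := by linarith |> fun h : 0 < s2 - s0 => h.ne'
  have n03 : s3 - s0 ≠ 0 := by linarith |> fun h : 0 < s3 - s0 => h.ne'
  have n12 : s2 - s1 ≠ 0 := by linarith |> fun h : 0 < s2 - s1 => h.ne'
  have n13 : s3 - s1 ≠ 0 := by linarith |> fun h : 0 < s3 - s1 => h.ne'
  have n23 : s3 - s2 ≠ 0 := by linarith |> fun h : 0 < s3 - s2 => h.ne'
  have key : ∀ F a b c : ℝ, |F| ≤ Φ → μ ≤ a → μ ≤ b → μ ≤ c →
      |F / (a * b * c)| ≤ Φ / μ ^ 3 := by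
    intro F a b c hF ha hb hc
    refine abs_div_le_of (by positivity) hF (le_trans ?_ (le_abs_self _))
    have := hμ.le.trans ha
    have := hμ.le.trans hb
    calc μ ^ 3 = μ * μ * μ := by ring
      _ ≤ _ := by gcongr
  have k0 := abs_le.mp (key F0 (s1 - s0) (s2 - s0) (s3 - s0) h0 (by linarith) (by linarith)
    (by linarith))
  have k1 := abs_le.mp (key F1 (s1 - s0) (s2 - s1) (s3 - s1) h1 (by linarith) (by linarith)
    (by linarith))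
  have k2 := abs_le.mp (key F2 (s2 - s0) (s2 - s1) (s3 - s2) h2 (by linarith) (by linarith)
    (by linarith))
  have k3 := abs_le.mp (key F3 (s3 - s0) (s3 - s1) (s3 - s2) h3 (by linarith) (by linarith)
    (by linarith))
  have e0 : F0 = F0 / ((s1 - s0) * (s2 - s0) * (s3 - s0)) * ((s1 - s0) * (s2 - s0) * (s3 - s0)) :=
    (div_mul_cancel₀ _ (mul_ne_zero (mul_ne_zero n01 n02) n03)).symm
  have e1 : F1 = F1 / ((s1 - s0) * (s2 - s1) * (s3 - s1)) * ((s1 - s0) * (s2 - s1) * (s3 - s1)) :=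
    (div_mul_cancel₀ _ (mul_ne_zero (mul_ne_zero n01 n12) n13)).symm
  have e2 : F2 = F2 / ((s2 - s0) * (s2 - s1) * (s3 - s2)) * ((s2 - s0) * (s2 - s1) * (s3 - s2)) :=
    (div_mul_cancel₀ _ (mul_ne_zero (mul_ne_zero n02 n12) n23)).symm
  have e3 : F3 = F3 / ((s3 - s0) * (s3 - s1) * (s3 - s2)) * ((s3 - s0) * (s3 - s1) * (s3 - s2)) :=
    (div_mul_cancel₀ _ (mul_ne_zero (mul_ne_zero n03 n13) n23)).symm
  generalize F0 / ((s1 - s0) * (s2 - s0) * (s3 - s0)) = w0 at *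
  generalize F1 / ((s1 - s0) * (s2 - s1) * (s3 - s1)) = w1 at *
  generalize F2 / ((s2 - s0) * (s2 - s1) * (s3 - s2)) = w2 at *
  generalize F3 / ((s3 - s0) * (s3 - s1) * (s3 - s2)) = w3 at *
  refine ⟨w0 * (s1 * s2 * s3) - w1 * (s0 * s2 * s3) + w2 * (s0 * s1 * s3) - w3 * (s0 * s1 * s2),
    -(w0 * (s1 * s2 + s1 * s3 + s2 * s3)) + w1 * (s0 * s2 + s0 * s3 + s2 * s3) -
      w2 * (s0 * s1 + s0 * s3 + s1 * s3) + w3 * (s0 * s1 + s0 * s2 + s1 * s2),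
    w0 * (s1 + s2 + s3) - w1 * (s0 + s2 + s3) + w2 * (s0 + s1 + s3) - w3 * (s0 + s1 + s2),
    -w0 + w1 - w2 + w3, ?_, ?_, ?_, ?_, abs_le.mpr ⟨by linarith, by linarith⟩⟩
  · rw [e0]; ring
  · rw [e1]; ring
  · rw [e2]; ring
  · rw [e3]; ring

lemma exp_lower {x c s ξ L : ℝ} (h : 1 / 3 ≤ Real.exp (x + c * s)) (hξ : |ξ - s| ≤ L)
    (hcL : |c| * L ≤ 1 / 10) : 1 / 4 ≤ Real.exp (x + c * ξ) := by
  have h1 : |c * (ξ - s)| ≤ 1 / 10 := by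
    rw [abs_mul]
    exact (mul_le_mul_of_nonneg_left hξ (abs_nonneg _)).trans hcL
  have h2 := Real.add_one_le_exp (c * (ξ - s))
  have e : x + c * ξ = x + c * s + c * (ξ - s) := by ring
  rw [e, Real.exp_add]
  nlinarith [(abs_le.mp h1).1]

lemma quad_arith {Q C L μ κ P d r : ℝ} (hQ : 0 < Q) (hC : 0 < C) (hcL : C * L ≤ 1 / 10)
    (k2 : C * Q * L ≤ κ) (hμ0 : 0 < μ) (hL0 : μ ≤ L) (hP : 0 ≤ P) (hDb : d * μ ≤ Q)
    (a3 : 6 * C * P ≤ 24 * r + C ^ 3 * (2 * Q + L * (d + P * L)) + 3 * C ^ 2 * (d + 2 * (P * L)))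
    (a4 : r * μ ^ 2 ≤ 16 * (κ * C)) : P * μ ^ 2 ≤ 100 * κ := by
  have hL : 0 < L := hμ0.trans_le hL0
  have hd : C * (d * μ ^ 2) ≤ κ := by
    calc C * (d * μ ^ 2) = C * (d * μ) * μ := by ring
      _ ≤ C * Q * L := by gcongr
      _ ≤ κ := k2
  have hκ : 0 ≤ κ := le_trans (by positivity) k2
  have hq : C ^ 2 * Q * μ ^ 2 ≤ κ / 10 := by
    calc C ^ 2 * Q * μ ^ 2 = C * Q * μ * (C * μ) := by ring
      _ ≤ C * Q * L * (C * L) := by gcongr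
      _ ≤ κ * (1 / 10) := by gcongr
      _ = _ := by ring
  have hu : 0 ≤ C * L := by positivity
  have a5 : C * (6 * (P * μ ^ 2)) ≤ C * (384 * κ + 2 * (C ^ 2 * Q * μ ^ 2) +
      (C * L + 3) * (C * (d * μ ^ 2)) + ((C * L) ^ 2 + 6 * (C * L)) * (P * μ ^ 2)) := by
    have := mul_le_mul_of_nonneg_right a3 (by positivity : 0 ≤ μ ^ 2)
    linarith
  have a6 := le_of_mul_le_mul_left a5 hC
  have a7 : ((C * L) ^ 2 + 6 * (C * L)) * (P * μ ^ 2) ≤ 1 * (P * μ ^ 2) :=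
    mul_le_mul_of_nonneg_right (by nlinarith) (by positivity)
  have a8 : (C * L + 3) * (C * (d * μ ^ 2)) ≤ 4 * κ :=
    (mul_le_mul_of_nonneg_left hd (by linarith)).trans
      (mul_le_mul_of_nonneg_right (by linarith) hκ)
  linarith

lemma lin_arith {Q C L μ κ P r : ℝ} (hQ : 0 < Q) (hC : 0 < C) (hcL : C * L ≤ 1 / 10)
    (k2 : C * Q * L ≤ κ) (hμ0 : 0 < μ) (hL0 : μ ≤ L) (hP : 0 ≤ P)
    (a3 : 2 * C * P ≤ 8 * r + C ^ 2 * (2 * Q + L * P)) (a4 : r * μ ≤ 12 * (κ * C)) :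
    P * μ ≤ 100 * κ := by
  have hq : C * Q * μ ≤ κ := le_trans (by gcongr) k2
  have hκ : 0 ≤ κ := le_trans (by positivity) hq
  have a5 : C * (2 * (P * μ)) ≤ C * (96 * κ + 2 * (C * Q * μ) + C * L * (P * μ)) := by
    have := mul_le_mul_of_nonneg_right a3 hμ0.le
    linarith
  have a6 := le_of_mul_le_mul_left a5 hC
  have a7 : C * L * (P * μ) ≤ 1 * (P * μ) :=
    mul_le_mul_of_nonneg_right (by linarith) (by positivity)
  linarith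

lemma le_of_exp_mul {E y r k : ℝ} (hE : 1 / 4 ≤ E) (hk : 0 < k) (e : E * y = k * r) :
    |y| ≤ 4 * k * |r| := by
  have := congrArg abs e
  rw [abs_mul, abs_mul, abs_of_pos (by linarith : 0 < E), abs_of_pos hk] at this
  nlinarith [abs_nonneg y]

/-- The third difference bounds the leading coefficient of the denominator. -/
lemma quad_bound {Q η x c L μ κ p0 p1 p2 q0 q1 q2 s0 s1 s2 s3 : ℝ} (hQ : 0 < Q) (hη : η ≤ 1 / 10)
    (hc : c ≠ 0) (hcL : |c| * L ≤ 1 / 10) (k1 : Q * η ≤ κ * |c|) (k2 : |c| * Q * L ≤ κ)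
    (hμ : 1 ≤ μ) (l1 : s0 + μ ≤ s1) (l2 : s1 + μ ≤ s2) (l3 : s2 + μ ≤ s3) (hL : s3 - s0 ≤ L)
    (h : ∀ s ∈ [s0, s1, s2, s3],
      Nr Q η (x + c * s) (q0 + q1 * s + q2 * s ^ 2) (p0 + p1 * s + p2 * s ^ 2)) :
    |p2| * μ ^ 2 ≤ 100 * κ := by
  have hμ0 : 0 < μ := by linarith
  have N0 := h s0 (by simp)
  have N1 := h s1 (by simp)
  obtain ⟨r0, r1, r2, r3, e0, e1, e2, e3, hr⟩ := interp3 hμ0 l1 l2 l3 (N0.exp hQ hη).1
    (N1.exp hQ hη).1 ((h s2 (by simp)).exp hQ hη).1 ((h s3 (by simp)).exp hQ hη).1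
  obtain ⟨ξ, hξ, e⟩ := rolle3 (ph_deriv x c p0 p1 p2 (q0 + r0) (q1 + r1) (q2 + r2) r3)
    (ph_deriv _ _ _ _ _ _ _ _ _) (ph_deriv _ _ _ _ _ _ _ _ _) (s0 := s0) (s1 := s1) (s2 := s2)
    (s3 := s3) (by linarith) (by linarith) (by linarith) (by unfold ph; linarith)
    (by unfold ph; linarith) (by unfold ph; linarith) (by unfold ph; linarith)
  have hE := exp_lower (ξ := ξ) (N0.exp hQ hη).2.1
    (abs_le.mpr ⟨by linarith [hξ.1], by linarith [hξ.2]⟩) hcL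
  have hC : 0 < |c| := abs_pos.mpr hc
  have hL0 : μ ≤ L := by linarith
  set D := p1 + p2 * (s0 + s1) with hD
  have hDb : |D| * μ ≤ Q := by
    have : |D| * (s1 - s0) ≤ Q := by
      rw [← abs_of_pos (by linarith : 0 < s1 - s0), ← abs_mul]
      exact abs_le.mpr ⟨by linarith [N0.hi2, N1.lo2], by linarith [N0.lo2, N1.hi2]⟩
    exact (mul_le_mul_of_nonneg_left (by linarith) (abs_nonneg _)).trans this
  have a1 : |p1 + 2 * p2 * ξ| ≤ |D| + 2 * (|p2| * L) := by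
    have : p1 + 2 * p2 * ξ = D + p2 * (ξ - s0) + p2 * (ξ - s1) := by ring
    rw [this]
    refine (abs_add_three _ _ _).trans ?_
    rw [abs_mul, abs_mul]
    have b0 : |ξ - s0| ≤ L := abs_le.mpr ⟨by linarith [hξ.1], by linarith [hξ.2]⟩
    have b1 : |ξ - s1| ≤ L := abs_le.mpr ⟨by linarith [hξ.1], by linarith [hξ.2]⟩
    have := mul_le_mul_of_nonneg_left b0 (abs_nonneg p2)
    have := mul_le_mul_of_nonneg_left b1 (abs_nonneg p2)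
    linarith
  have a0 : |p0 + p1 * ξ + p2 * ξ ^ 2| ≤ 2 * Q + L * (|D| + |p2| * L) := by
    have : p0 + p1 * ξ + p2 * ξ ^ 2 =
        p0 + p1 * s0 + p2 * s0 ^ 2 + (ξ - s0) * (D + p2 * (ξ - s1)) := by ring
    rw [this]
    refine (abs_add_le _ _).trans (add_le_add ?_ ?_)
    · exact abs_le.mpr ⟨by linarith [N0.lo2], N0.hi2⟩
    · rw [abs_mul]
      refine mul_le_mul (abs_le.mpr ⟨by linarith [hξ.1], by linarith [hξ.2]⟩)
        ((abs_add_le _ _).trans (add_le_add le_rfl ?_)) (abs_nonneg _) (by linarith)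
      rw [abs_mul]
      exact mul_le_mul_of_nonneg_left (abs_le.mpr ⟨by linarith [hξ.1], by linarith [hξ.2]⟩)
        (abs_nonneg _)
  have a2 : |c ^ 3 * (p0 + p1 * ξ + p2 * ξ ^ 2) + 3 * c ^ 2 * (p1 + 2 * p2 * ξ) + 6 * c * p2| ≤
      24 * |r3| := by
    have e' : Real.exp (x + c * ξ) *
        (c ^ 3 * (p0 + p1 * ξ + p2 * ξ ^ 2) + 3 * c ^ 2 * (p1 + 2 * p2 * ξ) + 6 * c * p2) =
          6 * r3 := by
      unfold ph at e
      linarith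
    linarith [le_of_exp_mul hE (by norm_num) e']
  have a3 : 6 * |c| * |p2| ≤ 24 * |r3| + |c| ^ 3 * (2 * Q + L * (|D| + |p2| * L)) +
      3 * |c| ^ 2 * (|D| + 2 * (|p2| * L)) := by
    have b0 : |c ^ 3 * (p0 + p1 * ξ + p2 * ξ ^ 2)| ≤ |c| ^ 3 * (2 * Q + L * (|D| + |p2| * L)) := by
      rw [abs_mul, abs_pow]
      gcongr
    have b1 : |3 * c ^ 2 * (p1 + 2 * p2 * ξ)| ≤ 3 * |c| ^ 2 * (|D| + 2 * (|p2| * L)) := by
      rw [abs_mul, abs_mul, abs_pow, abs_of_pos (by norm_num : (0 : ℝ) < 3)]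
      gcongr
    have b2 : |6 * c * p2| = 6 * |c| * |p2| := by
      rw [abs_mul, abs_mul, abs_of_pos (by norm_num : (0 : ℝ) < 6)]
    rw [← b2]
    have := abs_le.mp b0
    have := abs_le.mp b1
    have := abs_le.mp a2
    exact abs_le.mpr ⟨by linarith, by linarith⟩
  have a4 : |r3| * μ ^ 2 ≤ 16 * (κ * |c|) := by
    have h0 : 0 ≤ η := (abs_nonneg _).trans N0.near
    calc |r3| * μ ^ 2 ≤ 4 * (4 * Q * η / μ ^ 3) * μ ^ 2 := by gcongr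
      _ = 16 * (Q * η) / μ := by field_simp; ring
      _ ≤ 16 * (Q * η) := div_le_self (by positivity) hμ
      _ ≤ _ := by linarith
  exact quad_arith hQ hC hcL k2 hμ0 hL0 (abs_nonneg _) hDb a3 a4

/-- The second difference bounds the slope of the denominator. -/
lemma lin_bound {Q η x c L μ κ p0 p1 q0 q1 s0 s1 s2 : ℝ} (hQ : 0 < Q) (hη : η ≤ 1 / 10)
    (hc : c ≠ 0) (hcL : |c| * L ≤ 1 / 10) (k1 : Q * η ≤ κ * |c|) (k2 : |c| * Q * L ≤ κ)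
    (hμ : 1 ≤ μ) (l1 : s0 + μ ≤ s1) (l2 : s1 + μ ≤ s2) (hL : s2 - s0 ≤ L)
    (h : ∀ s ∈ [s0, s1, s2], Nr Q η (x + c * s) (q0 + q1 * s) (p0 + p1 * s)) :
    |p1| * μ ≤ 100 * κ := by
  have hμ0 : 0 < μ := by linarith
  have N0 := h s0 (by simp)
  obtain ⟨r0, r1, r2, e0, e1, e2, hr⟩ := interp2 hμ0 l1 l2 (N0.exp hQ hη).1
    ((h s1 (by simp)).exp hQ hη).1 ((h s2 (by simp)).exp hQ hη).1
  obtain ⟨ξ, hξ, e⟩ := rolle2 (ph_deriv x c p0 p1 0 (q0 + r0) (q1 + r1) r2 0)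
    (ph_deriv _ _ _ _ _ _ _ _ _) (s0 := s0) (s1 := s1) (s2 := s2)
    (by linarith) (by linarith) (by unfold ph; linarith)
    (by unfold ph; linarith) (by unfold ph; linarith)
  have hE := exp_lower (ξ := ξ) (N0.exp hQ hη).2.1
    (abs_le.mpr ⟨by linarith [hξ.1], by linarith [hξ.2]⟩) hcL
  have hC : 0 < |c| := abs_pos.mpr hc
  have hL0 : μ ≤ L := by linarith
  have a0 : |p0 + p1 * ξ| ≤ 2 * Q + L * |p1| := by
    have : p0 + p1 * ξ = p0 + p1 * s0 + (ξ - s0) * p1 := by ring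
    rw [this]
    refine (abs_add_le _ _).trans (add_le_add ?_ ?_)
    · exact abs_le.mpr ⟨by linarith [N0.lo2], N0.hi2⟩
    · rw [abs_mul]
      exact mul_le_mul_of_nonneg_right (abs_le.mpr ⟨by linarith [hξ.1], by linarith [hξ.2]⟩)
        (abs_nonneg _)
  have a2 : |c ^ 2 * (p0 + p1 * ξ) + 2 * c * p1| ≤ 8 * |r2| := by
    have e' : Real.exp (x + c * ξ) * (c ^ 2 * (p0 + p1 * ξ) + 2 * c * p1) = 2 * r2 := by
      unfold ph at e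
      linarith
    linarith [le_of_exp_mul hE (by norm_num) e']
  have a3 : 2 * |c| * |p1| ≤ 8 * |r2| + |c| ^ 2 * (2 * Q + L * |p1|) := by
    have b0 : |c ^ 2 * (p0 + p1 * ξ)| ≤ |c| ^ 2 * (2 * Q + L * |p1|) := by
      rw [abs_mul, abs_pow]
      gcongr
    have b2 : |2 * c * p1| = 2 * |c| * |p1| := by
      rw [abs_mul, abs_mul, abs_of_pos (by norm_num : (0 : ℝ) < 2)]
    rw [← b2]
    have := abs_le.mp b0
    have := abs_le.mp a2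
    exact abs_le.mpr ⟨by linarith, by linarith⟩
  have a4 : |r2| * μ ≤ 12 * (κ * |c|) := by
    have h0 : 0 ≤ η := (abs_nonneg _).trans N0.near
    calc |r2| * μ ≤ 3 * (4 * Q * η / μ ^ 2) * μ := by gcongr
      _ = 12 * (Q * η) / μ := by field_simp; ring
      _ ≤ 12 * (Q * η) := div_le_self (by positivity) hμ
      _ ≤ _ := by linarith
  exact lin_arith hQ hC hcL k2 hμ0 hL0 (abs_nonneg _) a3 a4

end Pool.Agent.Lib.MP_ecd12e_nt
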