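import Pool.Agent.Lib.MP_ecd12e_nt.Sch.Both

/-- A large value estimate with the term `T N ^ 2 V ^ (-7/2)`. -/
theorem Pool.Agent.Lib.MP_ecd12e_nt.SchattenKept.kept :
    ∀ ε : ℝ, 0 < ε → ∃ C : ℝ, ∀ N : ℕ, 1 ≤ N → ∀ T V : ℝ, (N : ℝ) ≤ T → 0 < V →
      ∀ b : ℕ → ℂ, (∀ n, ‖b n‖ ≤ 1) →
      ∀ W : Finset ℝ, (∀ t ∈ W, ∀ t' ∈ W, t ≠ t' → 1 ≤ |t - t'|) →
        (∀ t ∈ W, 0 ≤ t ∧ t ≤ T ∧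
          V ≤ ‖∑ n ∈ Finset.Icc N (2 * N),
              b n * Complex.exp (((t * Real.log (n : ℝ) : ℝ) : ℂ) * Complex.I)‖) →
        (W.card : ℝ) ≤ C * (N : ℝ) ^ ε *
          ((N : ℝ) ^ 3 / V ^ 3
            + T ^ (5 / 9 : ℝ) * (N : ℝ) ^ (8 / 3 : ℝ) / V ^ (32 / 9 : ℝ)
            + T ^ (8 / 11 : ℝ) * (N : ℝ) ^ (32 / 11 : ℝ) / V ^ (46 / 11 : ℝ)
            + T * (N : ℝ) ^ 2 / V ^ (7 / 2 : ℝ)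
            + T * (N : ℝ) ^ (10 / 3 : ℝ) / V ^ (16 / 3 : ℝ)) := fun _ hε =>
  (Pool.Agent.Lib.MP_ecd12e_nt.Sch.both_real hε).imp fun _ h => h.2
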