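import Pool.Agent.Lib.MP_ecd12e_nt.ZS.VMom

set_option autoImplicit false

namespace Pool.Agent.Lib.MP_ecd12e_nt.ZetaSumsKept

/-- Discrete moments of zeta sums (coefficients of bounded variation): a power saving over the
convexity bound between the fourth and the twelfth moment. -/
theorem moments : ∀ q : ℝ, 4 < q → q < 12 → ∃ d : ℝ, 0 < d ∧ ∃ C : ℝ,
    ∀ N : ℕ, 1 ≤ N → ∀ T A : ℝ, (N : ℝ) ^ 2 ≤ T → 1 ≤ A →
      ∀ b : ℕ → ℂ, (∀ n, ‖b n‖ ≤ 1) →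
      ∑ n ∈ Finset.Ico N (2 * N), ‖b (n + 1) - b n‖ ≤ A →
      ∀ W : Finset ℝ, (∀ t ∈ W, ∀ s ∈ W, t ≠ s → 1 ≤ |t - s|) → (∀ t ∈ W, T ≤ t ∧ t ≤ 2 * T) →
        ∑ t ∈ W, ‖∑ n ∈ Finset.Icc N (2 * N),
            b n * Complex.exp (((t * Real.log (n : ℝ) : ℝ) : ℂ) * Complex.I)‖ ^ q ≤
          C * A ^ q * (N : ℝ) ^ (q / 2) * T ^ (1 + (q - 4) / 8 - d) := by
  intro q hq hq'
  obtain ⟨d, hd, C, h⟩ := Pool.Agent.Lib.MP_ecd12e_nt.ZS.zeta_moments hq hq'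
  refine ⟨d, hd, C, fun N hN T A hT hA b hb hvar W hsep hW => ?_⟩
  have hA0 : 0 < A := by linarith
  have hAc : ‖(A : ℂ)‖ = A := by rw [Complex.norm_real, Real.norm_of_nonneg hA0.le]
  have key := h N hN T hT (fun n => b n / A)
    (by
      have h1 : ‖b N / (A : ℂ)‖ ≤ 1 := by
        rw [norm_div, hAc, div_le_one hA0]
        exact (hb N).trans hA
      have h2 : ∑ n ∈ Finset.Ico N (2 * N), ‖b (n + 1) / (A : ℂ) - b n / A‖ ≤ 1 := by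
        simp only [← sub_div, norm_div, hAc]
        rw [← Finset.sum_div, div_le_one hA0]
        exact hvar
      linarith) W hsep hW
  simp only [div_mul_eq_mul_div, ← Finset.sum_div, norm_div, hAc,
    Real.div_rpow (norm_nonneg _) hA0.le] at key
  rw [div_le_iff₀ (Real.rpow_pos_of_pos hA0 q)] at key
  exact key.trans_eq (by ring)

/-- The large value form. -/
theorem large : ∃ δ : ℝ, 0 < δ ∧ ∃ C : ℝ, ∀ N : ℕ, 1 ≤ N → ∀ T A V : ℝ, (N : ℝ) ^ 2 ≤ T → 1 ≤ A →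
      0 < V → A ^ 2 * (N : ℝ) * T ^ (1 / 4 - δ) ≤ V ^ 2 →
      ∀ b : ℕ → ℂ, (∀ n, ‖b n‖ ≤ 1) →
      ∑ n ∈ Finset.Ico N (2 * N), ‖b (n + 1) - b n‖ ≤ A →
      ∀ W : Finset ℝ, (∀ t ∈ W, ∀ s ∈ W, t ≠ s → 1 ≤ |t - s|) →
        (∀ t ∈ W, T ≤ t ∧ t ≤ 2 * T ∧
          V ≤ ‖∑ n ∈ Finset.Icc N (2 * N),
              b n * Complex.exp (((t * Real.log (n : ℝ) : ℝ) : ℂ) * Complex.I)‖) →
        (W.card : ℝ) ≤ C * A ^ 4 * T ^ (1 - δ) * (N : ℝ) ^ 2 / V ^ 4 := by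
  obtain ⟨d, hd, C, h⟩ := moments 6 (by norm_num) (by norm_num)
  refine ⟨d / 2, half_pos hd, max C 0, fun N hN T A V hT hA hV hVT b hb hvar W hsep hW => ?_⟩
  have key := h N hN T A hT hA b hb hvar W hsep fun t ht => ⟨(hW t ht).1, (hW t ht).2.1⟩
  have N1 : (1 : ℝ) ≤ N := by exact_mod_cast hN
  have T0 : 0 < T := by nlinarith
  have e6 : ∀ x : ℝ, x ^ (6 : ℝ) = x ^ 6 := fun x => by exact_mod_cast Real.rpow_natCast x 6
  have e3 : (N : ℝ) ^ ((6 : ℝ) / 2) = (N : ℝ) ^ 3 := by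
    rw [show (6 : ℝ) / 2 = (3 : ℕ) by norm_num, Real.rpow_natCast]
  have eT : T ^ (1 + ((6 : ℝ) - 4) / 8 - d) = T ^ (1 - d / 2) * T ^ (1 / 4 - d / 2) := by
    rw [← Real.rpow_add T0]
    congr 1
    ring
  simp only [e6, e3, eT] at key
  have h1 : (W.card : ℝ) * V ^ 6 ≤ _ := le_trans (by
    rw [← nsmul_eq_mul]
    exact Finset.card_nsmul_le_sum _ _ _ fun t ht => pow_le_pow_left₀ hV.le (hW t ht).2.2 6) key
  have p1 := Real.rpow_pos_of_pos T0 (1 - d / 2)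
  have p2 := Real.rpow_pos_of_pos T0 (1 / 4 - d / 2)
  rw [le_div_iff₀ (by positivity)]
  refine le_of_mul_le_mul_right ?_ (pow_pos hV 2)
  calc (W.card : ℝ) * V ^ 4 * V ^ 2 = W.card * V ^ 6 := by ring
    _ ≤ max C 0 * A ^ 6 * (N : ℝ) ^ 3 * (T ^ (1 - d / 2) * T ^ (1 / 4 - d / 2)) :=
        h1.trans (by gcongr; exact le_max_left _ _)
    _ = max C 0 * A ^ 4 * T ^ (1 - d / 2) * (N : ℝ) ^ 2 *
        (A ^ 2 * (N : ℝ) * T ^ (1 / 4 - d / 2)) := by ring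
    _ ≤ _ := mul_le_mul_of_nonneg_left hVT (by have := le_max_right C 0; positivity)

end Pool.Agent.Lib.MP_ecd12e_nt.ZetaSumsKept
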